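import Pool.Agent.Work.MP_df5a7a_co.Defs

namespace Pool.Agent.Work.MP_df5a7a_co

open Finset

/-- Every vertex of `B` meets a new edge, so there are at least `|B| / 2` new edges. -/
theorem card_le_two_mul_new {V : Type} [Fintype V] (G H : SimpleGraph V) (B : Finset V)
    (hB : ∀ x ∈ B, ∃ y, H.Adj x y ∧ ¬ G.Adj x y) :
    B.card ≤ 2 * (H.edgeSet \ G.edgeSet).ncard := by
  classical
  have h1 := (H \ G).sum_degrees_eq_twice_card_edges
  rw [← Set.ncard_coe_finset, SimpleGraph.coe_edgeFinset, SimpleGraph.edgeSet_sdiff] at h1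
  rw [← h1]
  calc B.card = ∑ _x ∈ B, 1 := by simp
    _ ≤ ∑ x ∈ B, (H \ G).degree x := by
        refine Finset.sum_le_sum fun x hx => ?_
        obtain ⟨y, hy, hy'⟩ := hB x hx
        have : (H \ G).Adj x y := by simp [SimpleGraph.sdiff_adj, hy, hy']
        exact (SimpleGraph.degree_pos_iff_exists_adj _ _).2 ⟨y, this⟩
    _ ≤ ∑ x, (H \ G).degree x := Finset.sum_le_sum_of_subset (Finset.subset_univ _)

/-- The vertex set: the diagonal pairs are the branch vertices. -/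
abbrev Vx (j : ℕ) : Type := (Fin (2 * j + 3) × Fin (2 * j + 3)) ⊕ Fin 3

def emb (j : ℕ) (i : Fin 3) : Fin (2 * j + 3) := ⟨i.1, by omega⟩

def e1 {j : ℕ} : Vx j → Fin (2 * j + 3)
  | Sum.inl p => p.1
  | Sum.inr i => emb j (i + 1)

def e2 {j : ℕ} : Vx j → Fin (2 * j + 3)
  | Sum.inl p => p.2
  | Sum.inr i => emb j (i + 2)

def br {j : ℕ} (a : Fin (2 * j + 3)) : Vx j := Sum.inl (a, a)

def Gr (j : ℕ) : SimpleGraph (Vx j) where
  Adj x y := (e1 x ≠ e2 x ∧ (y = br (e1 x) ∨ y = br (e2 x))) ∨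
    (e1 y ≠ e2 y ∧ (x = br (e1 y) ∨ x = br (e2 y)))
  symm := ⟨fun _ _ h => h.symm⟩
  loopless := ⟨fun x h => by
    have h' : e1 x ≠ e2 x ∧ (x = br (e1 x) ∨ x = br (e2 x)) := by
      rcases h with h | h <;> exact h
    obtain ⟨h1, h2 | h2⟩ := h' <;> (apply h1; rw [h2]; rfl)⟩

theorem e1_br {j : ℕ} (a : Fin (2 * j + 3)) : e1 (br a) = a := rfl
theorem e2_br {j : ℕ} (a : Fin (2 * j + 3)) : e2 (br a) = a := rfl

theorem br_inj {j : ℕ} {a b : Fin (2 * j + 3)} (h : br a = br b) : a = b := by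
  have := congrArg e1 h
  simpa [e1_br] using this

theorem adj_sub {j : ℕ} {x y : Vx j} (hx : e1 x ≠ e2 x) :
    (Gr j).Adj x y ↔ y = br (e1 x) ∨ y = br (e2 x) := by
  constructor
  · rintro (h | h)
    · exact h.2
    · obtain ⟨_, h2 | h2⟩ := h <;> exact absurd (by rw [h2]; rfl) hx
  · intro h
    exact Or.inl ⟨hx, h⟩

theorem emb_inj {j : ℕ} {a b : Fin 3} (h : emb j a = emb j b) : a = b := by
  have := congrArg Fin.val h
  exact Fin.ext this

theorem inr_sub {j : ℕ} (i : Fin 3) : e1 (Sum.inr i : Vx j) ≠ e2 (Sum.inr i : Vx j) := by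
  intro h
  have := emb_inj h
  revert this
  fin_cases i <;> decide

theorem sub_or_br {j : ℕ} (x : Vx j) : e1 x ≠ e2 x ∨ ∃ a, x = br a := by
  rcases x with ⟨a, b⟩ | i
  · by_cases h : a = b
    · subst h
      exact Or.inr ⟨a, rfl⟩
    · exact Or.inl h
  · exact Or.inl (inr_sub i)

theorem card_Vx (j : ℕ) : Fintype.card (Vx j) = (2 * j + 3) ^ 2 + 3 := by
  simp [Vx, sq]

theorem br_adj_pair {j : ℕ} {a b : Fin (2 * j + 3)} (h : a ≠ b) :
    (Gr j).Adj (Sum.inl (a, b)) (br a) ∧ (Gr j).Adj (Sum.inl (a, b)) (br b) :=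
  ⟨(adj_sub (x := Sum.inl (a, b)) h).2 (Or.inl rfl), (adj_sub (x := Sum.inl (a, b)) h).2 (Or.inr rfl)⟩

theorem Gr_connected (j : ℕ) : (Gr j).Connected := by
  have hbr : ∀ a b : Fin (2 * j + 3), (Gr j).Reachable (br a) (br b) := by
    intro a b
    by_cases h : a = b
    · subst h
      rfl
    · exact (br_adj_pair h).1.symm.reachable.trans (br_adj_pair h).2.reachable
  have hx : ∀ x : Vx j, ∃ a, (Gr j).Reachable x (br a) := by
    intro x
    rcases sub_or_br x with h | ⟨a, rfl⟩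
    · exact ⟨e1 x, ((adj_sub h).2 (Or.inl rfl)).reachable⟩
    · exact ⟨a, SimpleGraph.Reachable.refl _⟩
  refine { preconnected := fun x y => ?_, nonempty := ⟨Sum.inr 0⟩ }
  obtain ⟨a, ha⟩ := hx x
  obtain ⟨b, hb⟩ := hx y
  exact ha.trans ((hbr a b).trans hb.symm)

theorem Gr_two_nbrs (j : ℕ) (x : Vx j) : ∃ y z, y ≠ z ∧ (Gr j).Adj x y ∧ (Gr j).Adj x z := by
  rcases sub_or_br x with h | ⟨a, rfl⟩
  · exact ⟨br (e1 x), br (e2 x), fun h' => h (br_inj h'), (adj_sub h).2 (Or.inl rfl),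
      (adj_sub h).2 (Or.inr rfl)⟩
  · obtain ⟨b, hb⟩ := exists_ne a
    refine ⟨Sum.inl (a, b), Sum.inl (b, a), ?_, (br_adj_pair hb.symm).1.symm,
      (br_adj_pair hb).2.symm⟩
    intro h
    simp only [Sum.inl.injEq, Prod.mk.injEq] at h
    exact hb h.2

theorem Gr_minDegree (j : ℕ) [DecidableRel (Gr j).Adj] : 2 ≤ (Gr j).minDegree := by
  classical
  have : Nonempty (Vx j) := ⟨Sum.inr 0⟩
  refine SimpleGraph.le_minDegree_of_forall_le_degree _ _ fun x => ?_
  obtain ⟨y, z, hyz, hy, hz⟩ := Gr_two_nbrs j x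
  rw [← SimpleGraph.card_neighborFinset_eq_degree]
  have : ({y, z} : Finset (Vx j)) ⊆ (Gr j).neighborFinset x := by
    intro w hw
    simp only [Finset.mem_insert, Finset.mem_singleton] at hw
    rcases hw with rfl | rfl <;> simpa
  simpa [Finset.card_pair hyz] using Finset.card_le_card this

/-- The main count: every extension with two disjoint total dominating sets has many new edges. -/
theorem new_edges (j : ℕ) (H : SimpleGraph (Vx j)) (hH : HasTwoDisjointTD H) :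
    (j + 1) ^ 2 + 1 ≤ (H.edgeSet \ (Gr j).edgeSet).ncard := by
  classical
  obtain ⟨S, T, hST, hS, hT⟩ := hH
  have bad : ∀ x : Vx j, e1 x ≠ e2 x → (br (e1 x) ∈ S ↔ br (e2 x) ∈ S) →
      ∃ y, H.Adj x y ∧ ¬ (Gr j).Adj x y := by
    intro x hx hc
    by_cases h1 : br (e1 x) ∈ S
    · obtain ⟨y, hy, hxy⟩ := hT x
      refine ⟨y, hxy, fun h => ?_⟩
      rcases (adj_sub hx).1 h with rfl | rfl
      · exact Set.disjoint_left.1 hST h1 hy
      · exact Set.disjoint_left.1 hST (hc.1 h1) hy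
    · obtain ⟨y, hy, hxy⟩ := hS x
      refine ⟨y, hxy, fun h => ?_⟩
      rcases (adj_sub hx).1 h with rfl | rfl
      · exact h1 hy
      · exact h1 (hc.2 hy)
  obtain ⟨i, hi⟩ : ∃ i : Fin 3, (br (emb j (i + 1)) ∈ S ↔ br (emb j (i + 2)) ∈ S) := by
    by_contra hcon
    push Not at hcon
    have h0 := hcon 0
    have h1 := hcon 1
    have h2 := hcon 2
    have a1 : (0 : Fin 3) + 1 = 1 := rfl
    have a2 : (0 : Fin 3) + 2 = 2 := rfl
    have a3 : (1 : Fin 3) + 1 = 2 := rfl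
    have a4 : (1 : Fin 3) + 2 = 0 := rfl
    have a5 : (2 : Fin 3) + 1 = 0 := rfl
    have a6 : (2 : Fin 3) + 2 = 1 := rfl
    rw [a1, a2] at h0
    rw [a3, a4] at h1
    rw [a5, a6] at h2
    tauto
  set P : Finset (Fin (2 * j + 3)) := Finset.univ.filter fun a => br a ∈ S with hP
  set B0 : Finset (Fin (2 * j + 3) × Fin (2 * j + 3)) := P.offDiag ∪ Pᶜ.offDiag with hB0
  set B : Finset (Vx j) := insert (Sum.inr i) (B0.map Function.Embedding.inl) with hB
  have hcard := card_le_two_mul_new (Gr j) H B (by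
    intro x hx
    rw [hB, Finset.mem_insert] at hx
    rcases hx with rfl | hx
    · exact bad _ (inr_sub i) hi
    · obtain ⟨⟨a, b⟩, hab, rfl⟩ := Finset.mem_map.1 hx
      rw [hB0, Finset.mem_union, Finset.mem_offDiag, Finset.mem_offDiag] at hab
      rcases hab with ⟨ha, hb, hab⟩ | ⟨ha, hb, hab⟩
      · refine bad _ hab ?_
        simp only [hP, Finset.mem_filter, Finset.mem_univ, true_and] at ha hb
        exact ⟨fun _ => hb, fun _ => ha⟩
      · refine bad _ hab ?_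
        simp only [hP, Finset.mem_compl, Finset.mem_filter, Finset.mem_univ, true_and] at ha hb
        exact ⟨fun h => absurd h ha, fun h => absurd h hb⟩)
  have hdisj : Disjoint P.offDiag Pᶜ.offDiag := by
    rw [Finset.disjoint_left]
    intro x hx hx'
    rw [Finset.mem_offDiag] at hx hx'
    exact (Finset.mem_compl.1 hx'.1) hx.1
  have hBcard : B.card = P.card * P.card - P.card + (Pᶜ.card * Pᶜ.card - Pᶜ.card) + 1 := by
    rw [hB, Finset.card_insert_of_notMem (by simp), Finset.card_map, hB0,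
      Finset.card_union_of_disjoint hdisj, Finset.offDiag_card, Finset.offDiag_card]
  have hsum : P.card + Pᶜ.card = 2 * j + 3 := by
    rw [Finset.card_add_card_compl]
    simp
  rw [hBcard] at hcard
  generalize (H.edgeSet \ (Gr j).edgeSet).ncard = k at hcard ⊢
  generalize P.card = p at hcard hsum
  generalize Pᶜ.card = q at hcard hsum
  have hp : p ≤ p * p := Nat.le_mul_self p
  have hq : q ≤ q * q := Nat.le_mul_self q
  have key : 2 * (j + 1) ^ 2 + (p + q) ≤ p * p + q * q := by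
    have h1 : (1 : ℤ) ≤ ((p : ℤ) - q) ^ 2 := by
      have hne : (p : ℤ) - q ≠ 0 := by omega
      have := sq_pos_of_ne_zero hne
      omega
    have h2 : (p : ℤ) + q = 2 * j + 3 := by exact_mod_cast hsum
    have h3 : 2 * ((j : ℤ) + 1) ^ 2 + (p + q) ≤ p * p + q * q := by
      have h4 : 2 * ((p : ℤ) * p + q * q) = ((p : ℤ) + q) ^ 2 + ((p : ℤ) - q) ^ 2 := by ring
      rw [h2] at h4 ⊢
      nlinarith
    exact_mod_cast h3
  omega

theorem top_hasTwo (j : ℕ) : HasTwoDisjointTD (⊤ : SimpleGraph (Vx j)) := by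
  refine ⟨Set.range Sum.inl, Set.range Sum.inr, ?_, fun v => ?_, fun v => ?_⟩
  · rw [Set.disjoint_left]
    rintro _ ⟨a, rfl⟩ ⟨b, hb⟩
    exact absurd hb (by simp)
  · by_cases h : v = br (emb j 0)
    · refine ⟨br (emb j 1), ⟨_, rfl⟩, ?_⟩
      rw [h, SimpleGraph.top_adj]
      intro h'
      exact absurd (emb_inj (br_inj h')) (by decide)
    · exact ⟨br (emb j 0), ⟨_, rfl⟩, (SimpleGraph.top_adj _ _).2 h⟩
  · by_cases h : v = Sum.inr 0
    · refine ⟨Sum.inr 1, ⟨_, rfl⟩, ?_⟩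
      rw [h, SimpleGraph.top_adj]
      simp
    · exact ⟨Sum.inr 0, ⟨_, rfl⟩, (SimpleGraph.top_adj _ _).2 h⟩

theorem td_Gr (j : ℕ) : (j + 1) ^ 2 + 1 ≤ td (Gr j) := by
  have hne : {k : ℕ | ∃ H : SimpleGraph (Vx j), Gr j ≤ H ∧
      (H.edgeSet \ (Gr j).edgeSet).ncard = k ∧ HasTwoDisjointTD H}.Nonempty :=
    ⟨_, ⊤, le_top, rfl, top_hasTwo j⟩
  obtain ⟨H, -, hk, hH⟩ := Nat.sInf_mem hne
  unfold td
  rw [← hk]
  exact new_edges j H hH

theorem bound_lt (j : ℕ) :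
    (1 / 4 : ℝ) * ((Fintype.card (Vx j) : ℝ) - 2 * Real.sqrt (Fintype.card (Vx j) : ℝ)) + 1 / 2
      < (td (Gr j) : ℝ) := by
  have h1 : (((j + 1) ^ 2 + 1 : ℕ) : ℝ) ≤ (td (Gr j) : ℝ) := by exact_mod_cast td_Gr j
  rw [card_Vx]
  have h2 : (2 * (j : ℝ) + 3) < Real.sqrt (((2 * j + 3) ^ 2 + 3 : ℕ) : ℝ) := by
    apply Real.lt_sqrt_of_sq_lt
    push_cast
    linarith
  push_cast at h1 h2 ⊢
  nlinarith

end Pool.Agent.Work.MP_df5a7a_co
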