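import Mathlib

namespace Pool.Agent.Work.MP_df5a7a_co

/-- `S` is a total dominating set of `G`: every vertex (also those of `S`) has a neighbour in `S`. -/
def IsTotalDominating {V : Type} (G : SimpleGraph V) (S : Set V) : Prop :=
  ∀ v : V, ∃ u ∈ S, G.Adj v u

/-- `G` has two disjoint total dominating sets. -/
def HasTwoDisjointTD {V : Type} (G : SimpleGraph V) : Prop :=
  ∃ S T : Set V, Disjoint S T ∧ IsTotalDominating G S ∧ IsTotalDominating G T

/-- `td G`: the least number of edges of the complement of `G` whose addition to `G` gives a graph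
with two disjoint total dominating sets. -/
noncomputable def td {V : Type} (G : SimpleGraph V) : ℕ :=
  sInf {k : ℕ | ∃ H : SimpleGraph V, G ≤ H ∧ (H.edgeSet \ G.edgeSet).ncard = k ∧ HasTwoDisjointTD H}

end Pool.Agent.Work.MP_df5a7a_co
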