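import Pool.Agent.Work.MP_df5a7a_co.Defs
import Mathlib

-- merged part: Pool.Agent.Work.MP_df5a7a_co.Pair
section
/-! From a 2-colouring to an augmentation with two disjoint total dominating sets. -/

namespace Pool.Agent.Work.MP_df5a7a_co

open Finset

variable {V : Type} [Fintype V] [DecidableEq V]

/-- `v` has no neighbour of colour `b`. -/
def Need (G : SimpleGraph V) (c : V → Bool) (v : V) (b : Bool) : Prop := ∀ u, G.Adj v u → c u ≠ b

open Classical in
/-- Vertices of colour `a` with no neighbour of colour `b`. -/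
noncomputable def typ (G : SimpleGraph V) (c : V → Bool) (a b : Bool) : Finset V :=
  univ.filter fun v => c v = a ∧ Need G c v b

omit [DecidableEq V] in
theorem mem_typ {G : SimpleGraph V} {c : V → Bool} {a b : Bool} {v : V} :
    v ∈ typ G c a b ↔ c v = a ∧ Need G c v b := by
  simp [typ]

/-- The number of edges that the pairing procedure adds. -/
noncomputable def cost (G : SimpleGraph V) (c : V → Bool) : ℕ :=
  ((typ G c true true).card + 1) / 2 + ((typ G c false false).card + 1) / 2 +
    max (typ G c true false).card (typ G c false true).card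

def Aug (G : SimpleGraph V) (k : ℕ) : Prop :=
  ∃ H : SimpleGraph V, G ≤ H ∧ (H.edgeSet \ G.edgeSet).ncard ≤ k ∧ HasTwoDisjointTD H

omit [Fintype V] [DecidableEq V] in
theorem Aug.td_le {G : SimpleGraph V} {k : ℕ} (h : Aug G k) : td G ≤ k := by
  obtain ⟨H, h1, h2, h3⟩ := h
  refine le_trans (Nat.sInf_le ?_) h2
  exact ⟨H, h1, rfl, h3⟩

omit [DecidableEq V] in
theorem Aug.mono {G G' : SimpleGraph V} {k : ℕ} (hG : G ≤ G') (h : Aug G k) : Aug G' k := by
  obtain ⟨H, h1, h2, S, T, hd, hS, hT⟩ := h
  refine ⟨H ⊔ G', le_sup_right, le_trans (Set.ncard_le_ncard ?_ (Set.toFinite _)) h2, S, T, hd,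
    fun v => ?_, fun v => ?_⟩
  · rw [SimpleGraph.edgeSet_sup]
    rintro e ⟨h3 | h3, h4⟩
    · exact ⟨h3, fun h5 => h4 (SimpleGraph.edgeSet_mono hG h5)⟩
    · exact absurd h3 h4
  · obtain ⟨u, hu, h⟩ := hS v
    exact ⟨u, hu, Or.inl h⟩
  · obtain ⟨u, hu, h⟩ := hT v
    exact ⟨u, hu, Or.inl h⟩

omit [DecidableEq V] in
theorem Aug.of_edge {G : SimpleGraph V} {k : ℕ} {u v : V} (h : Aug (G ⊔ SimpleGraph.edge u v) k) :
    Aug G (k + 1) := by
  obtain ⟨H, h1, h2, h3⟩ := h
  refine ⟨H, le_sup_left.trans h1, ?_, h3⟩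
  have : H.edgeSet \ G.edgeSet ⊆ insert s(u, v) (H.edgeSet \ (G ⊔ SimpleGraph.edge u v).edgeSet) := by
    rintro e ⟨h4, h5⟩
    by_cases he : e = s(u, v)
    · exact Or.inl he
    · refine Or.inr ⟨h4, ?_⟩
      rw [SimpleGraph.edgeSet_sup]
      rintro (h6 | h6)
      · exact h5 h6
      · exact he (SimpleGraph.edgeSet_edge_subset h6)
  exact (Set.ncard_le_ncard this (Set.toFinite _)).trans ((Set.ncard_insert_le _ _).trans (by omega))

omit [DecidableEq V] in
theorem typ_edge_subset (G : SimpleGraph V) (c : V → Bool) (u v : V) (a b : Bool) :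
    typ (G ⊔ SimpleGraph.edge u v) c a b ⊆ typ G c a b := by
  intro x hx
  rw [mem_typ] at hx ⊢
  exact ⟨hx.1, fun y hy => hx.2 y (Or.inl hy)⟩

omit [DecidableEq V] in
theorem notMem_typ_edge (G : SimpleGraph V) (c : V → Bool) {u v : V} (huv : u ≠ v) (a : Bool) :
    u ∉ typ (G ⊔ SimpleGraph.edge u v) c a (c v) ∧ v ∉ typ (G ⊔ SimpleGraph.edge u v) c a (c u) := by
  have h : (G ⊔ SimpleGraph.edge u v).Adj u v :=
    Or.inr (by rw [SimpleGraph.edge_adj]; exact ⟨Or.inl ⟨rfl, rfl⟩, huv⟩)
  exact ⟨fun e => (mem_typ.1 e).2 v h rfl, fun e => (mem_typ.1 e).2 u h.symm rfl⟩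

theorem aug_cost (c : V → Bool) (hc : ∀ b, 2 ≤ (univ.filter fun v => c v = b).card) (k : ℕ) :
    ∀ G : SimpleGraph V, cost G c ≤ k → Aug G k := by
  have other : ∀ b (u : V), ∃ v, v ≠ u ∧ c v = b := by
    intro b u
    obtain ⟨v, hv, hvu⟩ := exists_mem_ne (hc b) u
    exact ⟨v, hvu, (mem_filter.1 hv).2⟩
  induction k with
  | zero =>
    intro G h
    unfold cost at h
    have h0 : ∀ a b, typ G c a b = ∅ := by
      intro a b
      rw [← card_eq_zero]
      cases a <;> cases b <;> omega
    have h1 : ∀ b v, ∃ u ∈ {u | c u = b}, G.Adj v u := by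
      intro b v
      by_contra hcon
      push Not at hcon
      have : v ∈ typ G c (c v) b := mem_typ.2 ⟨rfl, fun u hu e => hcon u e hu⟩
      rw [h0] at this
      simp at this
    refine ⟨G, le_rfl, by simp, {u | c u = true}, {u | c u = false}, ?_, h1 true, h1 false⟩
    rw [Set.disjoint_left]
    intro u h1 h2
    simp only [Set.mem_ofPred_eq] at h1 h2
    rw [h1] at h2
    exact absurd h2 (by simp)
  | succ k ih =>
    intro G h
    have one : ∀ u v a b, u ∈ typ G c a b → v ≠ u → c v = b →
        (typ (G ⊔ SimpleGraph.edge u v) c a b).card + 1 ≤ (typ G c a b).card := by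
      intro u v a b hu hvu hv
      refine card_lt_card ⟨typ_edge_subset G c u v a b, fun e => ?_⟩
      exact (notMem_typ_edge G c hvu.symm a).1 (hv ▸ e hu)
    have same : ∀ b, (typ G c b b).Nonempty → ∃ u v, (typ (G ⊔ SimpleGraph.edge u v) c b b).card + 2 ≤
        (typ G c b b).card ∨ (typ (G ⊔ SimpleGraph.edge u v) c b b).card = 0 := by
      intro b ⟨u, hu⟩
      by_cases h2 : 1 < (typ G c b b).card
      · obtain ⟨v, hv, hvu⟩ := exists_mem_ne h2 u
        refine ⟨u, v, Or.inl ?_⟩
        have h3 := notMem_typ_edge G c hvu.symm b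
        rw [(mem_typ.1 hu).1, (mem_typ.1 hv).1] at h3
        have h4 : typ (G ⊔ SimpleGraph.edge u v) c b b ⊆ ((typ G c b b).erase u).erase v := by
          intro x hx
          exact mem_erase.2 ⟨fun e => h3.2 (e ▸ hx), mem_erase.2 ⟨fun e => h3.1 (e ▸ hx),
            typ_edge_subset G c u v b b hx⟩⟩
        have h5 := card_le_card h4
        have h6 := card_erase_add_one hu
        have h7 := card_erase_add_one (mem_erase.2 ⟨hvu, hv⟩)
        omega
      · obtain ⟨v, hvu, hv⟩ := other b u
        have := one u v b b hu hvu hv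
        exact ⟨u, v, Or.inr (by omega)⟩
    have mon : ∀ u v a b, (typ (G ⊔ SimpleGraph.edge u v) c a b).card ≤ (typ G c a b).card :=
      fun u v a b => card_le_card (typ_edge_subset G c u v a b)
    have fin : ∀ u v, cost (G ⊔ SimpleGraph.edge u v) c + 1 ≤ cost G c → Aug G (k + 1) :=
      fun u v e => (ih (G ⊔ SimpleGraph.edge u v) (by omega)).of_edge
    by_cases hk : cost G c ≤ k
    · obtain ⟨H, h1, h2, h3⟩ := ih G hk
      exact ⟨H, h1, by omega, h3⟩
    rcases (typ G c true true).eq_empty_or_nonempty with hX | hX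
    swap
    · obtain ⟨u, v, h1⟩ := same true hX
      have := card_pos.2 hX
      have m1 := mon u v false false
      have m2 := mon u v true false
      have m3 := mon u v false true
      exact fin u v (by unfold cost; omega)
    rcases (typ G c false false).eq_empty_or_nonempty with hY | hY
    swap
    · obtain ⟨u, v, h1⟩ := same false hY
      have := card_pos.2 hY
      have m1 := mon u v true true
      have m2 := mon u v true false
      have m3 := mon u v false true
      exact fin u v (by unfold cost; omega)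
    rcases (typ G c true false).eq_empty_or_nonempty with hP | ⟨u, hu⟩ <;>
      rcases (typ G c false true).eq_empty_or_nonempty with hQ | ⟨v, hv⟩
    · exfalso
      apply hk
      unfold cost
      simp [hX, hY, hP, hQ]
    · obtain ⟨u, huv, hu⟩ := other true v
      have h1 := one v u _ _ hv huv hu
      have m0 := mon v u true true
      have m1 := mon v u false false
      have m2 := mon v u true false
      rw [hP, card_empty] at m2
      exact fin v u (by unfold cost; omega)
    · obtain ⟨v, huv, hv⟩ := other false u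
      have h1 := one u v _ _ hu huv hv
      have m0 := mon u v true true
      have m1 := mon u v false false
      have m2 := mon u v false true
      rw [hQ, card_empty] at m2
      exact fin u v (by unfold cost; omega)
    · have cu := (mem_typ.1 hu).1
      have cv := (mem_typ.1 hv).1
      have huv : v ≠ u := by
        rintro rfl
        rw [cu] at cv
        exact absurd cv (by simp)
      have h1 := one u v _ _ hu huv cv
      have h2 := one v u _ _ hv huv.symm cu
      rw [SimpleGraph.edge_comm] at h2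
      have m0 := mon u v true true
      have m1 := mon u v false false
      exact fin u v (by unfold cost; omega)

end Pool.Agent.Work.MP_df5a7a_co
end

-- merged part: Pool.Agent.Work.MP_df5a7a_co.Colour
section
/-! Colouring a set `A` of degree-two vertices so that few vertices have a monochromatic
neighbourhood. -/

namespace Pool.Agent.Work.MP_df5a7a_co

open Finset

variable {V : Type} [Fintype V] [DecidableEq V]

/-- `v` sees both colours. -/
def Good (G : SimpleGraph V) (c : V → Bool) (v : V) : Prop :=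
  ∃ u w, G.Adj v u ∧ G.Adj v w ∧ c u ≠ c w

open Classical in
noncomputable def bad (G : SimpleGraph V) (c : V → Bool) : Finset V :=
  univ.filter fun v => ¬ Good G c v

omit [DecidableEq V] in
theorem mem_bad {G : SimpleGraph V} {c : V → Bool} {v : V} : v ∈ bad G c ↔ ¬ Good G c v := by
  simp [bad]

omit [Fintype V] [DecidableEq V] in
theorem Good.congr {G : SimpleGraph V} {c c' : V → Bool} {v : V} (h : Good G c v)
    (e : ∀ u, G.Adj v u → c' u = c u) : Good G c' v := by
  obtain ⟨u, w, h1, h2, h3⟩ := h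
  exact ⟨u, w, h1, h2, by rw [e u h1, e w h2]; exact h3⟩

variable (G : SimpleGraph V) [DecidableRel G.Adj]

def dA (A : Finset V) (v : V) : ℕ := (A.filter fun s => G.Adj v s).card

def Wt (A : Finset V) (v : V) : ℕ :=
  if dA G A v = 0 then 3 else if G.degree v = 2 then 2 - dA G A v else 3 - dA G A v

def Psi : Finset V := univ.filter fun s => ∀ u, G.Adj s u → G.degree u = 2

variable {G}

omit [DecidableEq V] in
theorem exists_other {v : V} (h : 2 ≤ G.degree v) (s : V) : ∃ t, G.Adj v t ∧ t ≠ s := by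
  obtain ⟨t, ht, hts⟩ := exists_mem_ne (s := G.neighborFinset v)
    (by rw [SimpleGraph.card_neighborFinset_eq_degree]; omega) s
  exact ⟨t, by simpa using ht, hts⟩

theorem other_end {s a : V} (h : G.degree s = 2) (ha : G.Adj s a) :
    ∃ b, b ≠ a ∧ G.Adj s b ∧ ∀ u, G.Adj s u → u = a ∨ u = b := by
  obtain ⟨b, hb, hba⟩ := exists_other h.ge a
  refine ⟨b, hba, hb, fun u hu => ?_⟩
  by_contra hcon
  push Not at hcon
  have h1 : ({u, a, b} : Finset V) ⊆ G.neighborFinset s := by
    intro x hx
    simp only [mem_insert, mem_singleton] at hx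
    rcases hx with rfl | rfl | rfl <;> simpa
  have h2 := card_le_card h1
  rw [card_eq_three.2 ⟨u, a, b, hcon.1, hcon.2, hba.symm, rfl⟩,
    SimpleGraph.card_neighborFinset_eq_degree] at h2
  omega

theorem exists_third {v : V} (h : 3 ≤ G.degree v) (s s' : V) :
    ∃ t, G.Adj v t ∧ t ≠ s ∧ t ≠ s' := by
  by_contra hcon
  push Not at hcon
  have h1 : G.neighborFinset v ⊆ {s, s'} := by
    intro x hx
    simp only [mem_insert, mem_singleton]
    by_cases e : x = s
    · exact Or.inl e
    · exact Or.inr (hcon x (by simpa using hx) e)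
  have h2 := (card_le_card h1).trans card_le_two
  rw [SimpleGraph.card_neighborFinset_eq_degree] at h2
  omega

/-- The statement proved by induction. -/
def EC (G : SimpleGraph V) [DecidableRel G.Adj] (A Dn : Finset V) (c0 : V → Bool) : Prop :=
  ∃ c : V → Bool, (∀ v, v ∉ A → c v = c0 v) ∧
    3 * (bad G c \ Dn).card ≤ ∑ v ∈ univ \ Dn, Wt G A v + (A ∩ Psi G).card

theorem EC.last {A Dn B Z : Finset V} {c0 : V → Bool} (hB : B ⊆ A)
    (hZ : ∀ s ∈ B, ∀ u, G.Adj u s → u ∈ Dn ∨ u ∈ Z)
    (hc : ∀ c' : V → Bool, ∃ c : V → Bool, (∀ v, v ∉ B → c v = c' v) ∧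
      3 * (bad G c ∩ Z).card ≤ (B ∩ Psi G).card)
    (ih : EC G (A \ B) (Dn ∪ Z) c0) : EC G A Dn c0 := by
  obtain ⟨c', h1, h2⟩ := ih
  obtain ⟨c, h3, h4⟩ := hc c'
  refine ⟨c, fun v hv => ?_, ?_⟩
  · rw [h3 v fun e => hv (hB e), h1 v fun e => hv (mem_sdiff.1 e).1]
  · have h5 : bad G c \ Dn ⊆ (bad G c' \ (Dn ∪ Z)) ∪ (bad G c ∩ Z) := by
      intro v hv
      rw [mem_sdiff] at hv
      by_cases hz : v ∈ Z
      · exact mem_union_right _ (mem_inter.2 ⟨hv.1, hz⟩)
      · refine mem_union_left _ (mem_sdiff.2 ⟨mem_bad.2 fun e => mem_bad.1 hv.1 (e.congr ?_), ?_⟩)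
        · intro u hu
          refine h3 u fun e' => ?_
          rcases hZ u e' v hu with h | h
          · exact hv.2 h
          · exact hz h
        · simp [hv.2, hz]
    have h6 := (card_le_card h5).trans (card_union_le _ _)
    have h7 : ∑ v ∈ univ \ (Dn ∪ Z), Wt G (A \ B) v ≤ ∑ v ∈ univ \ Dn, Wt G A v := by
      refine le_trans (le_of_eq (sum_congr rfl fun v hv => ?_))
        (sum_le_sum_of_subset (sdiff_subset_sdiff le_rfl subset_union_left))
      have : dA G (A \ B) v = dA G A v := by
        unfold dA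
        congr 1
        ext s
        simp only [mem_filter, mem_sdiff]
        refine ⟨fun h => ⟨h.1.1, h.2⟩, fun h => ⟨⟨h.1, fun e => ?_⟩, h.2⟩⟩
        have := hZ s e v h.2
        simp only [mem_sdiff, mem_univ, mem_union, true_and] at hv
        exact hv this
      unfold Wt
      rw [this]
    have h8 : ((A \ B) ∩ Psi G).card + (B ∩ Psi G).card ≤ (A ∩ Psi G).card := by
      rw [← card_union_of_disjoint]
      · refine card_le_card ?_
        intro x hx
        simp only [mem_union, mem_inter, mem_sdiff] at hx ⊢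
        rcases hx with h | h
        · exact ⟨h.1.1, h.2⟩
        · exact ⟨hB h.1, h.2⟩
      · rw [disjoint_left]
        intro x h h'
        exact (mem_sdiff.1 (mem_inter.1 h).1).2 (mem_inter.1 h').1
    omega

theorem EC.ruleD (h2 : ∀ v, 2 ≤ G.degree v) {A Dn : Finset V} {c0 : V → Bool} {s a : V}
    (hs : s ∈ A) (hd : G.degree s = 2) (ha : a ∈ Dn) (hsa : G.Adj s a)
    (ih : ∀ Dn', EC G (A \ {s}) Dn' c0) : EC G A Dn c0 := by
  obtain ⟨b, -, hb, hab⟩ := other_end hd hsa
  obtain ⟨t, ht, hts⟩ := exists_other (h2 b) s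
  refine EC.last (B := {s}) (Z := {b}) (by simpa using hs) ?_ ?_ (ih _)
  · intro s' hs' u hu
    rw [mem_singleton] at hs'
    subst hs'
    rcases hab u hu.symm with rfl | rfl
    · exact Or.inl ha
    · simp
  · intro c'
    refine ⟨Function.update c' s (!c' t), fun v hv => Function.update_of_ne (by simpa using hv) _ _, ?_⟩
    have : bad G (Function.update c' s (!c' t)) ∩ {b} = ∅ := by
      rw [eq_empty_iff_forall_notMem]
      intro x hx
      rw [mem_inter, mem_singleton] at hx
      obtain ⟨h3, rfl⟩ := hx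
      refine mem_bad.1 h3 ⟨s, t, hb.symm, ht, ?_⟩
      rw [Function.update_self, Function.update_of_ne hts]
      simp
    simp [this]

omit [Fintype V] in
theorem dA_erase {A : Finset V} {s v : V} (hs : s ∈ A) :
    dA G (A \ {s}) v + (if G.Adj v s then 1 else 0) = dA G A v := by
  unfold dA
  split_ifs with h
  · have : A.filter (fun s => G.Adj v s) = insert s ((A \ {s}).filter fun s => G.Adj v s) := by
      ext x
      simp only [mem_filter, mem_insert, mem_sdiff, mem_singleton]
      by_cases e : x = s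
      · simp [e, hs, h]
      · simp [e]
    rw [this, card_insert_of_notMem (by simp)]
  · rw [add_zero]
    congr 1
    ext x
    simp only [mem_filter, mem_sdiff, mem_singleton]
    by_cases e : x = s
    · simp [e, h]
    · simp [e]

theorem EC.leaf (h2 : ∀ v, 2 ≤ G.degree v) {A Dn : Finset V} {c0 : V → Bool} {s v : V}
    (hs : s ∈ A) (hd : G.degree s = 2) (hsv : G.Adj s v) (h1 : dA G A v = 1)
    (hDn : ∀ u, G.Adj s u → u ∉ Dn)
    (ih : ∀ Dn' c', EC G (A \ {s}) Dn' c') : EC G A Dn c0 := by
  obtain ⟨b, hbv, hb, hab⟩ := other_end hd hsv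
  obtain ⟨t, ht, hts⟩ := exists_other (h2 v) s
  have htA : t ∉ A := by
    intro h
    have : ({t, s} : Finset V) ⊆ A.filter fun s => G.Adj v s := by
      intro x hx
      simp only [mem_insert, mem_singleton] at hx
      rcases hx with rfl | rfl
      · exact mem_filter.2 ⟨h, ht⟩
      · exact mem_filter.2 ⟨hs, hsv.symm⟩
    have h3 := card_le_card this
    rw [card_pair hts] at h3
    unfold dA at h1
    omega
  obtain ⟨c, h3, h4⟩ := ih (insert v Dn) (Function.update c0 s (!c0 t))
  refine ⟨c, fun x hx => ?_, ?_⟩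
  · rw [h3 x fun e => hx (mem_sdiff.1 e).1, Function.update_of_ne (fun e : x = s => hx (e ▸ hs))]
  · have hv : Good G c v := by
      refine ⟨s, t, hsv.symm, ht, ?_⟩
      rw [h3 s (by simp), h3 t fun e => htA (mem_sdiff.1 e).1, Function.update_self,
        Function.update_of_ne hts]
      simp
    have h5 : bad G c \ Dn ⊆ bad G c \ insert v Dn := by
      intro x hx
      rw [mem_sdiff] at hx ⊢
      refine ⟨hx.1, fun e => ?_⟩
      rcases mem_insert.1 e with rfl | e
      · exact mem_bad.1 hx.1 hv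
      · exact hx.2 e
    have h6 := card_le_card h5
    have hvD := hDn v hsv
    have hbD := hDn b hb
    have e1 : ∑ x ∈ univ \ Dn, Wt G A x = Wt G A v + ∑ x ∈ univ \ insert v Dn, Wt G A x := by
      rw [sdiff_insert, add_sum_erase _ _ (by simp [hvD])]
    have hbm : b ∈ univ \ insert v Dn := by simp [hbv, hbD]
    have e2 := add_sum_erase _ (Wt G A) hbm
    have e3 := add_sum_erase _ (Wt G (A \ {s})) hbm
    have e4 : ∑ x ∈ (univ \ insert v Dn).erase b, Wt G (A \ {s}) x =
        ∑ x ∈ (univ \ insert v Dn).erase b, Wt G A x := by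
      refine sum_congr rfl fun x hx => ?_
      have h7 := dA_erase (G := G) (v := x) hs
      rw [if_neg, add_zero] at h7
      · unfold Wt
        rw [h7]
      · intro e
        simp only [mem_erase, mem_sdiff, mem_insert] at hx
        rcases hab x e.symm with h | h
        · exact hx.2.2 (Or.inl h)
        · exact hx.1 h
    have e5 : ((A \ {s}) ∩ Psi G).card + (if s ∈ Psi G then 1 else 0) ≤ (A ∩ Psi G).card := by
      split_ifs with h
      · refine card_lt_card ⟨inter_subset_inter_right sdiff_subset, fun e => ?_⟩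
        have := e (mem_inter.2 ⟨hs, h⟩)
        simp at this
      · exact card_le_card (inter_subset_inter_right sdiff_subset)
    have e6 : Wt G (A \ {s}) b ≤ Wt G A b + Wt G A v + (if s ∈ Psi G then 1 else 0) := by
      have h7 := dA_erase (G := G) (v := b) hs
      rw [if_pos hb.symm] at h7
      have h8 : G.degree v = 2 → G.degree b = 2 → s ∈ Psi G := by
        intro p q
        refine mem_filter.2 ⟨mem_univ _, fun u hu => ?_⟩
        rcases hab u hu with rfl | rfl <;> assumption
      unfold Wt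
      rw [h1, ← h7]
      by_cases p : G.degree v = 2 <;> by_cases q : G.degree b = 2
      · simp only [h8 p q, p, q, if_true]
        split_ifs <;> omega
      all_goals
        simp only [p, q, if_true, if_false]
        split_ifs <;> omega
    omega

omit [Fintype V] [DecidableEq V] in
theorem exists_other_A {A : Finset V} {v : V} (h : 2 ≤ dA G A v) (s : V) :
    ∃ t ∈ A, G.Adj v t ∧ t ≠ s := by
  obtain ⟨t, ht, hts⟩ := exists_mem_ne (s := A.filter fun s => G.Adj v s) h s
  exact ⟨t, (mem_filter.1 ht).1, (mem_filter.1 ht).2, hts⟩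

/-- A cycle through the vertex-edge structure on `A`. -/
theorem exists_cycle {A : Finset V} (hA : ∀ s ∈ A, G.degree s = 2)
    (hd : ∀ s ∈ A, ∀ v, G.Adj v s → 2 ≤ dA G A v) {v0 s0 : V} (h0 : s0 ∈ A) (h0' : G.Adj v0 s0) :
    ∃ (k : ℕ) (vv ss : ℕ → V), 2 ≤ k ∧ (∀ i, ss i ∈ A ∧ G.Adj (vv i) (ss i) ∧
      G.Adj (vv (i + 1)) (ss i) ∧ vv (i + 1) ≠ vv i) ∧ vv k = vv 0 ∧
      (∀ i < k, ∀ j < k, ss i = ss j → i = j) ∧
      (vv 0 = v0 ∨ ∃ t, G.Adj (vv 0) t ∧ ∀ i < k, ss i ≠ t) ∧
      (∀ i < k, ∀ j < k, vv i = vv j → i = j) := by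
  have step : ∀ p : {p : V × V // p.2 ∈ A ∧ G.Adj p.1 p.2},
      ∃ q : {p : V × V // p.2 ∈ A ∧ G.Adj p.1 p.2},
        q.1.1 ≠ p.1.1 ∧ G.Adj q.1.1 p.1.2 ∧ q.1.2 ≠ p.1.2 := by
    rintro ⟨⟨v, s⟩, h1, h2⟩
    obtain ⟨b, hb, hsb, -⟩ := other_end (hA s h1) h2.symm
    obtain ⟨t, ht, hbt, hts⟩ := exists_other_A (hd s h1 b hsb.symm) s
    exact ⟨⟨(b, t), ht, hbt⟩, hb, hsb.symm, hts⟩
  choose F hF using step
  let w : ℕ → {p : V × V // p.2 ∈ A ∧ G.Adj p.1 p.2} := fun i => F^[i] ⟨(v0, s0), h0, h0'⟩
  have hw : ∀ i, w (i + 1) = F (w i) := fun i => Function.iterate_succ_apply' F i _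
  obtain ⟨v, hv⟩ : ∃ v : ℕ → V, ∀ i, v i = (w i).1.1 := ⟨_, fun _ => rfl⟩
  obtain ⟨s, hs⟩ : ∃ s : ℕ → V, ∀ i, s i = (w i).1.2 := ⟨_, fun _ => rfl⟩
  have a1 : ∀ i, s i ∈ A := fun i => hs i ▸ (w i).2.1
  have a2 : ∀ i, G.Adj (v i) (s i) := fun i => by rw [hs, hv]; exact (w i).2.2
  have a3 : ∀ i, G.Adj (v (i + 1)) (s i) := fun i => by rw [hs, hv, hw]; exact (hF _).2.1
  have a4 : ∀ i, v (i + 1) ≠ v i := fun i => by rw [hv, hv, hw]; exact (hF _).1
  have a5 : ∀ i, s (i + 1) ≠ s i := fun i => by rw [hs, hs, hw]; exact (hF _).2.2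
  have a0 : v 0 = v0 := by rw [hv]; rfl
  clear hv hs hw
  clear_value w
  have ex : ∃ j, ∃ i < j, v i = v j := by
    obtain ⟨i, j, hij, e⟩ := Finite.exists_ne_map_eq_of_infinite v
    rcases lt_or_gt_of_ne hij with h | h
    · exact ⟨j, i, h, e⟩
    · exact ⟨i, j, h, e.symm⟩
  classical
  obtain ⟨i, hij, e⟩ := Nat.find_spec ex
  have hmin := fun j => Nat.find_min ex (m := j)
  generalize Nat.find ex = j at hij e hmin
  have vinj : ∀ p < j, ∀ q < j, v p = v q → p = q := by
    intro p hp q hq h
    by_contra hne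
    rcases lt_or_gt_of_ne hne with h' | h'
    · exact hmin q hq ⟨p, h', h⟩
    · exact hmin p hp ⟨q, h', h.symm⟩
  have sinj' : ∀ p q, p < q → q < j → s p ≠ s q := by
    intro p q hpq hq h
    obtain ⟨b, -, -, hb⟩ := other_end (hA _ (a1 p)) (a2 p).symm
    have h1 := (hb _ (a3 p).symm).resolve_left (a4 p)
    have h2 := (hb (v q) (h ▸ (a2 q).symm)).resolve_left fun e' => by
      have := vinj q hq p (by omega) e'
      omega
    have h3 := vinj (p + 1) (by omega) q hq (h1.trans h2.symm)
    subst h3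
    exact a5 p h.symm
  have sinj : ∀ p < j, ∀ q < j, s p = s q → p = q := by
    intro p hp q hq h
    by_contra hne
    rcases lt_or_gt_of_ne hne with h' | h'
    · exact sinj' p q h' hq h
    · exact sinj' q p h' hp h.symm
  have hk : i + 1 ≠ j := by
    rintro rfl
    exact a4 i e.symm
  refine ⟨j - i, fun p => v (i + p), fun p => s (i + p), by omega,
    fun p => ⟨a1 _, a2 _, a3 _, a4 _⟩, ?_, ?_, ?_, ?_⟩
  · show v (i + (j - i)) = v (i + 0)
    rw [show i + (j - i) = j by omega, add_zero, e]
  · intro p hp q hq h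
    have := sinj (i + p) (by omega) (i + q) (by omega) h
    omega
  · rcases i with _ | i
    · exact Or.inl a0
    · refine Or.inr ⟨s i, a3 i, fun p hp h => ?_⟩
      have := sinj (i + 1 + p) (by omega) i (by omega) h
      omega
  · intro p hp q hq h
    have := vinj (i + p) (by omega) (i + q) (by omega) h
    omega

theorem EC.cycle {A Dn : Finset V} {c0 : V → Bool} (hA : ∀ s ∈ A, G.degree s = 2)
    (h2 : ∀ v, 2 ≤ G.degree v)
    (hd : ∀ s ∈ A, ∀ v, G.Adj v s → 2 ≤ dA G A v) (hne : A.Nonempty)
    (ih : ∀ B ⊆ A, B.Nonempty → ∀ Dn', EC G (A \ B) Dn' c0) : EC G A Dn c0 := by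
  obtain ⟨v0, s0, h0, h0', h3⟩ : ∃ v0 s0, s0 ∈ A ∧ G.Adj v0 s0 ∧
      (3 ≤ G.degree v0 ∨ A ⊆ Psi G) := by
    by_cases h : A ⊆ Psi G
    · obtain ⟨s, hs⟩ := hne
      obtain ⟨t, ht, -⟩ := exists_other (h2 s) s
      exact ⟨t, s, hs, ht.symm, Or.inr h⟩
    · obtain ⟨s, hs, hs'⟩ := not_subset.1 h
      simp only [Psi, mem_filter, mem_univ, true_and, not_forall] at hs'
      obtain ⟨u, hu, hu'⟩ := hs'
      have := h2 u
      exact ⟨u, s, hs, hu.symm, Or.inl (by omega)⟩
  obtain ⟨k, vv, ss, hk, h4, h5, h6, h7, h8⟩ := exists_cycle hA hd h0 h0'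
  have nb : ∀ i, ∀ u, G.Adj u (ss i) → u = vv i ∨ u = vv (i + 1) := by
    intro i u hu
    obtain ⟨b, -, -, hb⟩ := other_end (hA _ (h4 i).1) (h4 i).2.1.symm
    have h1 := (hb _ (h4 i).2.2.1.symm).resolve_left (h4 i).2.2.2
    rw [h1]
    exact hb u hu.symm
  have hB : (range k).image ss ⊆ A := by
    intro x hx
    obtain ⟨i, -, rfl⟩ := mem_image.1 hx
    exact (h4 i).1
  refine EC.last (B := (range k).image ss) (Z := (range k).image vv) hB ?_ ?_
    (ih _ hB ⟨ss 0, mem_image_of_mem _ (mem_range.2 (by omega))⟩ _)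
  · intro s hs u hu
    obtain ⟨i, hi, rfl⟩ := mem_image.1 hs
    rw [mem_range] at hi
    refine Or.inr ?_
    rcases nb i u hu with rfl | rfl
    · exact mem_image_of_mem _ (mem_range.2 hi)
    · by_cases e : i + 1 < k
      · exact mem_image_of_mem _ (mem_range.2 e)
      · rw [show i + 1 = k by omega, h5]
        exact mem_image_of_mem _ (mem_range.2 (by omega))
  · intro c'
    have col : ∀ x : Bool, ∃ c : V → Bool, (∀ v, v ∉ (range k).image ss → c v = c' v) ∧
        c (ss 0) = x ∧ (∀ i, i + 1 < k → c (ss (i + 1)) ≠ c (ss i)) := by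
      intro x
      classical
      have key : ∀ i < k, (if h : ∃ j < k, ss j = ss i then xor x (decide (h.choose % 2 = 1))
          else c' (ss i)) = xor x (decide (i % 2 = 1)) := by
        intro i hi
        have h : ∃ j < k, ss j = ss i := ⟨i, hi, rfl⟩
        rw [dif_pos h, h6 _ h.choose_spec.1 i hi h.choose_spec.2]
      refine ⟨fun u => if h : ∃ j < k, ss j = u then xor x (decide (h.choose % 2 = 1)) else c' u,
        fun v hv => dif_neg fun ⟨j, hj, e⟩ => hv (mem_image.2 ⟨j, mem_range.2 hj, e⟩), ?_, ?_⟩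
      · beta_reduce
        rw [key 0 (by omega)]
        simp
      · intro i hi
        beta_reduce
        rw [key i (by omega), key (i + 1) hi]
        rcases Nat.mod_two_eq_zero_or_one i with h | h <;> simp [h, Nat.add_mod]
    have gd : ∀ c : V → Bool, (∀ i, i + 1 < k → c (ss (i + 1)) ≠ c (ss i)) →
        bad G c ∩ (range k).image vv ⊆ {vv 0} ∧
          (Good G c (vv 0) → bad G c ∩ (range k).image vv = ∅) := by
      intro c hc
      have : ∀ x ∈ bad G c ∩ (range k).image vv, x = vv 0 := by
        intro x hx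
        obtain ⟨hx1, hx2⟩ := mem_inter.1 hx
        obtain ⟨i, hi, rfl⟩ := mem_image.1 hx2
        rcases i with _ | i
        · rfl
        · exact absurd ⟨_, _, (h4 (i + 1)).2.1, (h4 i).2.2.1, hc i (mem_range.1 hi)⟩ (mem_bad.1 hx1)
      refine ⟨fun x hx => mem_singleton.2 (this x hx), fun h => ?_⟩
      rw [eq_empty_iff_forall_notMem]
      intro x hx
      exact mem_bad.1 (mem_inter.1 hx).1 (this x hx ▸ h)
    by_cases ht : ∃ t, G.Adj (vv 0) t ∧ ∀ i < k, ss i ≠ t
    · obtain ⟨t, ht, ht'⟩ := ht
      obtain ⟨c, e1, e2, e3⟩ := col (!c' t)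
      refine ⟨c, e1, ?_⟩
      rw [(gd c e3).2 ⟨ss 0, t, (h4 0).2.1, ht, ?_⟩]
      · simp
      · rw [e2, e1 t]
        · simp
        · intro h
          obtain ⟨i, hi, e⟩ := mem_image.1 h
          exact ht' i (mem_range.1 hi) e
    · obtain ⟨c, e1, -, e3⟩ := col true
      refine ⟨c, e1, ?_⟩
      have hP : A ⊆ Psi G := by
        refine h3.resolve_left fun h => ht ?_
        rw [← h7.resolve_right ht] at h
        obtain ⟨t, t1, t2, t3⟩ := exists_third h (ss 0) (ss (k - 1))
        refine ⟨t, t1, fun i hi e => ?_⟩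
        subst e
        rcases nb i _ t1 with e | e
        · exact t2 (by rw [h8 0 (by omega) i hi e])
        · by_cases e' : i + 1 < k
          · have := h8 0 (by omega) _ e' e
            omega
          · exact t3 (by rw [show k - 1 = i by omega])
      by_cases hk2 : k = 2
      · subst hk2
        rw [(gd c e3).2 ⟨ss 1, ss 0, h5 ▸ (h4 1).2.2.1, (h4 0).2.1, e3 0 (by omega)⟩]
        simp
      · have e4 := card_le_card (gd c e3).1
        rw [card_singleton] at e4
        rw [inter_eq_left.2 (hB.trans hP), card_image_of_injOn, card_range]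
        · omega
        · intro i hi j hj e
          exact h6 i (by simpa using hi) j (by simpa using hj) e

theorem ec (h2 : ∀ v, 2 ≤ G.degree v) (A : Finset V) :
    (∀ s ∈ A, G.degree s = 2) → ∀ Dn c0, EC G A Dn c0 := by
  induction A using Finset.strongInduction with
  | H A ih =>
    intro hA Dn c0
    have ih' : ∀ B ⊆ A, B.Nonempty → ∀ Dn' c', EC G (A \ B) Dn' c' := fun B hB hne =>
      ih _ (sdiff_ssubset hB hne) fun s hs => hA s (mem_sdiff.1 hs).1
    rcases A.eq_empty_or_nonempty with rfl | hne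
    · refine ⟨c0, fun _ _ => rfl, ?_⟩
      have : ∀ v, Wt G ∅ v = 3 := fun v => by simp [Wt, dA]
      simp only [this, sum_const, smul_eq_mul]
      have := card_le_card (sdiff_subset_sdiff (subset_univ (bad G c0)) (le_refl Dn))
      omega
    by_cases hD : ∃ s ∈ A, ∃ a ∈ Dn, G.Adj s a
    · obtain ⟨s, hs, a, ha, hsa⟩ := hD
      exact EC.ruleD h2 hs (hA s hs) ha hsa fun Dn' => ih' _ (by simpa using hs) (by simp) _ _
    by_cases hL : ∃ s ∈ A, ∃ v, G.Adj s v ∧ dA G A v = 1
    · obtain ⟨s, hs, v, hsv, h1⟩ := hL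
      exact EC.leaf h2 hs (hA s hs) hsv h1 (fun u hu e => hD ⟨s, hs, u, e, hu⟩)
        fun Dn' c' => ih' _ (by simpa using hs) (by simp) _ _
    refine EC.cycle hA h2 (fun s hs v hv => ?_) hne fun B hB hB' Dn' => ih' B hB hB' Dn' c0
    have h1 : dA G A v ≠ 1 := fun e => hL ⟨s, hs, v, hv.symm, e⟩
    have h3 : 0 < dA G A v := card_pos.2 ⟨s, mem_filter.2 ⟨hs, hv⟩⟩
    omega

end Pool.Agent.Work.MP_df5a7a_co
end

-- merged part: Pool.Agent.Work.MP_df5a7a_co.First
section
/-! The first colouring of an edge-minimal graph of minimum degree two. -/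

namespace Pool.Agent.Work.MP_df5a7a_co

open Finset

variable {V : Type} [Fintype V] [DecidableEq V] (G : SimpleGraph V) [DecidableRel G.Adj]

def EE : Finset V := univ.filter fun s => G.degree s = 2 ∧ ∀ u, G.Adj s u → 3 ≤ G.degree u

def LL : Finset V := univ.filter fun v => 3 ≤ G.degree v

def RR : Finset V := (univ.filter fun v => G.degree v = 2) \ EE G

structure Inv (K : ℕ) (c : V → Bool) : Prop where
  opp : ∀ s ∈ EE G ∩ bad G c, ∀ u, G.Adj s u → c u ≠ c s
  opt : ∀ c', (EE G ∩ bad G c).card ≤ (EE G ∩ bad G c').card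
  cnt : 3 * (bad G c).card ≤ 3 * (EE G ∩ bad G c).card + K

variable {G}

omit [DecidableEq V] in
theorem mem_EE {s : V} : s ∈ EE G ↔ G.degree s = 2 ∧ ∀ u, G.Adj s u → 3 ≤ G.degree u := by
  simp [EE]

omit [DecidableEq V] in
theorem mem_LL {s : V} : s ∈ LL G ↔ 3 ≤ G.degree s := by
  simp [LL]

omit [Fintype V] [DecidableEq V] [DecidableRel G.Adj] in
theorem good_iff {c : V → Bool} {s a b : V} (ha : G.Adj s a) (hb : G.Adj s b)
    (hab : ∀ u, G.Adj s u → u = a ∨ u = b) : Good G c s ↔ c a ≠ c b := by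
  refine ⟨?_, fun h => ⟨a, b, ha, hb, h⟩⟩
  rintro ⟨u, w, hu, hw, h⟩ e
  apply h
  rcases hab u hu with rfl | rfl <;> rcases hab w hw with rfl | rfl <;> simp [e]

theorem EE_bad_congr {c c' : V → Bool} (h : ∀ v, 3 ≤ G.degree v → c' v = c v) :
    EE G ∩ bad G c' = EE G ∩ bad G c := by
  ext s
  simp only [mem_inter, mem_bad]
  refine and_congr_right fun hs => not_congr ⟨fun e => e.congr fun u hu => ?_,
    fun e => e.congr fun u hu => ?_⟩
  · exact (h u ((mem_EE.1 hs).2 u hu)).symm
  · exact h u ((mem_EE.1 hs).2 u hu)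

theorem local_opt {c : V → Bool} (h : ∀ c', (EE G ∩ bad G c).card ≤ (EE G ∩ bad G c').card)
    (l : V) : ((EE G ∩ bad G c).filter fun s => G.Adj l s).card ≤
      ((EE G \ bad G c).filter fun s => G.Adj l s).card := by
  have h1 := h (Function.update c l (!c l))
  have h2 : EE G ∩ bad G (Function.update c l (!c l)) ⊆
      ((EE G ∩ bad G c).filter fun s => ¬ G.Adj l s) ∪
        ((EE G \ bad G c).filter fun s => G.Adj l s) := by
    intro s hs
    obtain ⟨h3, h4⟩ := mem_inter.1 hs
    rw [mem_bad] at h4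
    by_cases hl : G.Adj l s
    · refine mem_union_right _ (mem_filter.2 ⟨mem_sdiff.2 ⟨h3, fun e => ?_⟩, hl⟩)
      obtain ⟨b, hb, hsb, hab⟩ := other_end (mem_EE.1 h3).1 hl.symm
      rw [mem_bad, good_iff hl.symm hsb hab] at e
      rw [good_iff hl.symm hsb hab, Function.update_self, Function.update_of_ne hb] at h4
      revert e h4
      cases c l <;> cases c b <;> simp
    · refine mem_union_left _ (mem_filter.2 ⟨mem_inter.2 ⟨h3, mem_bad.2 fun e => h4 (e.congr ?_)⟩, hl⟩)
      intro u hu
      exact Function.update_of_ne (fun e' : u = l => hl (e' ▸ hu.symm)) _ _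
  have h3 := (card_le_card h2).trans (card_union_le _ _)
  have h4 := card_filter_add_card_filter_not (s := EE G ∩ bad G c) (fun s => G.Adj l s)
  omega

theorem first_colouring (h2 : ∀ v, 2 ≤ G.degree v)
    (hmin : ∀ u v, G.Adj u v → G.degree u = 2 ∨ G.degree v = 2) :
    ∃ (c : V → Bool) (M : Finset V), M ⊆ LL G ∧
      (∀ l ∈ M, ((EE G).filter fun s => G.Adj l s).card ≤ 4) ∧ Inv G ((RR G).card + M.card) c := by
  obtain ⟨cs, -, hcs⟩ := exists_min_image univ (fun c : V → Bool => (EE G ∩ bad G c).card)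
    univ_nonempty
  replace hcs := fun c' => hcs c' (mem_univ _)
  have nb : ∀ v, ∃ u, G.Adj v u := fun v => by
    obtain ⟨t, ht, -⟩ := exists_other (h2 v) v
    exact ⟨t, ht⟩
  choose ea hea using nb
  obtain ⟨U, hU⟩ : ∃ U, U = EE G ∩ bad G cs := ⟨_, rfl⟩
  obtain ⟨A, hA⟩ : ∃ A, A = (univ.filter fun v => G.degree v = 2) \ U := ⟨_, rfl⟩
  have mA : ∀ s, s ∈ A ↔ G.degree s = 2 ∧ s ∉ U := by simp [hA]
  have mU : ∀ s ∈ U, s ∈ EE G := fun s hs => (mem_inter.1 (hU ▸ hs)).1
  obtain ⟨c, hc1, hc2⟩ := ec h2 A (fun s hs => ((mA s).1 hs).1) (EE G)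
    (fun v => if v ∈ U then !cs (ea v) else cs v)
  beta_reduce at hc1
  have hL : ∀ v, 3 ≤ G.degree v → c v = cs v := by
    intro v hv
    rw [hc1 v fun e => by have := ((mA v).1 e).1; omega, if_neg]
    intro e
    have := (mem_EE.1 (mU v e)).1
    omega
  have hE : EE G ∩ bad G c = U := by rw [EE_bad_congr hL, hU]
  have loc : ∀ l, (U.filter fun s => G.Adj l s).card ≤ dA G A l ∧
      ((EE G).filter fun s => G.Adj l s).card ≤ 2 * dA G A l := by
    intro l
    have h3 := local_opt hcs l
    rw [← hU] at h3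
    have h4 : ((EE G \ bad G cs).filter fun s => G.Adj l s).card ≤ dA G A l := by
      refine card_le_card fun s hs => ?_
      simp only [mem_filter, mem_sdiff] at hs ⊢
      refine ⟨(mA s).2 ⟨(mem_EE.1 hs.1.1).1, fun e => hs.1.2 ?_⟩, hs.2⟩
      exact (mem_inter.1 (hU ▸ e)).2
    have h5 : ((EE G).filter fun s => G.Adj l s) ⊆ (U.filter fun s => G.Adj l s) ∪
        ((EE G \ bad G cs).filter fun s => G.Adj l s) := by
      intro s hs
      simp only [mem_filter, mem_sdiff, mem_union, hU, mem_inter] at hs ⊢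
      tauto
    have h6 := (card_le_card h5).trans (card_union_le _ _)
    omega
  have hdL : ∀ l, 3 ≤ G.degree l → 2 ≤ dA G A l := by
    intro l hl
    have h3 : G.neighborFinset l ⊆ (U.filter fun s => G.Adj l s) ∪ (A.filter fun s => G.Adj l s) := by
      intro s hs
      rw [SimpleGraph.mem_neighborFinset] at hs
      have := hmin l s hs
      simp only [mem_filter, mem_union, mA]
      by_cases e : s ∈ U
      · exact Or.inl ⟨e, hs⟩
      · exact Or.inr ⟨⟨by omega, e⟩, hs⟩
    have h4 := (card_le_card h3).trans (card_union_le _ _)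
    rw [SimpleGraph.card_neighborFinset_eq_degree] at h4
    have h5 := (loc l).1
    unfold dA at h5 ⊢
    omega
  refine ⟨c, (LL G).filter fun l => dA G A l = 2, filter_subset _ _, fun l hl => ?_, ?_, ?_, ?_⟩
  · have := (loc l).2
    rw [(mem_filter.1 hl).2] at this
    exact this
  · intro s hs u hu
    rw [hE] at hs
    have h3 := mem_EE.1 (mU s hs)
    rw [hL u (h3.2 u hu), hc1 s fun e => ((mA s).1 e).2 hs, if_pos hs]
    have h4 : cs u = cs (ea s) := by
      by_contra e
      exact mem_bad.1 (mem_inter.1 (hU ▸ hs)).2 ⟨u, ea s, hu, hea s, e⟩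
    rw [h4]
    simp
  · intro c'
    rw [hE, hU]
    exact hcs c'
  · have e1 : (bad G c).card = (bad G c \ EE G).card + (EE G ∩ bad G c).card := by
      rw [inter_comm, card_sdiff_add_card_inter]
    have e2 : (A ∩ Psi G).card = ∑ v ∈ univ \ EE G, if v ∈ A ∩ Psi G then 1 else 0 := by
      rw [← card_filter]
      congr 1
      ext s
      simp only [mem_filter, mem_sdiff, mem_univ, true_and, iff_and_self]
      intro hs e
      have h3 := (mem_filter.1 (mem_inter.1 hs).2).2 _ (hea s)
      have h4 := (mem_EE.1 e).2 _ (hea s)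
      omega
    have e3 : ∀ v ∈ univ \ EE G, Wt G A v + (if v ∈ A ∩ Psi G then 1 else 0) ≤
        (if v ∈ RR G then 1 else 0) + (if v ∈ (LL G).filter fun l => dA G A l = 2 then 1 else 0) := by
      intro v hv
      have hv' : v ∉ EE G := (mem_sdiff.1 hv).2
      by_cases hd : G.degree v = 2
      · have r1 : v ∈ RR G := mem_sdiff.2 ⟨by simp [hd], hv'⟩
        have inA : ∀ u, G.Adj v u → G.degree u = 2 → u ∈ A := by
          intro u hu e
          refine (mA u).2 ⟨e, fun e' => ?_⟩
          have := (mem_EE.1 (mU u e')).2 v hu.symm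
          omega
        have r2 : 1 ≤ dA G A v := by
          rw [mem_EE] at hv'
          push Not at hv'
          obtain ⟨u, hu, hu'⟩ := hv' hd
          have := h2 u
          exact card_pos.2 ⟨u, mem_filter.2 ⟨inA u hu (by omega), hu⟩⟩
        have r3 : v ∈ A ∩ Psi G → 2 ≤ dA G A v := by
          intro h
          have h3 := (mem_filter.1 (mem_inter.1 h).2).2
          have h4 : G.neighborFinset v ⊆ A.filter fun s => G.Adj v s := by
            intro s hs
            rw [SimpleGraph.mem_neighborFinset] at hs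
            exact mem_filter.2 ⟨inA s hs (h3 s hs), hs⟩
          have h5 := card_le_card h4
          rw [SimpleGraph.card_neighborFinset_eq_degree] at h5
          unfold dA
          omega
        unfold Wt
        rw [if_pos r1, if_neg (by omega), if_pos hd]
        by_cases h : v ∈ A ∩ Psi G
        · have := r3 h
          rw [if_pos h]
          omega
        · rw [if_neg h]
          omega
      · have h3 : 3 ≤ G.degree v := by have := h2 v; omega
        have h4 := hdL v h3
        have h5 : v ∉ A ∩ Psi G := fun e => hd ((mA v).1 (mem_inter.1 e).1).1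
        unfold Wt
        rw [if_neg (by omega), if_neg hd, if_neg h5]
        by_cases h : dA G A v = 2
        · rw [if_pos (mem_filter.2 ⟨mem_LL.2 h3, h⟩)]
          omega
        · omega
    have e4 := sum_le_sum e3
    rw [sum_add_distrib, sum_add_distrib, ← e2, ← card_filter, ← card_filter] at e4
    have e5 : ((univ \ EE G).filter fun v => v ∈ RR G).card ≤ (RR G).card :=
      card_le_card fun v hv => (mem_filter.1 hv).2
    have e6 : ((univ \ EE G).filter fun v => v ∈ (LL G).filter fun l => dA G A l = 2).card ≤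
        ((LL G).filter fun l => dA G A l = 2).card :=
      card_le_card fun v hv => (mem_filter.1 hv).2
    omega

end Pool.Agent.Work.MP_df5a7a_co
end

-- merged part: Pool.Agent.Work.MP_df5a7a_co.Bal
section
/-! Balancing the two mixed types and fixing parities. -/

namespace Pool.Agent.Work.MP_df5a7a_co

open Finset

variable {V : Type} [Fintype V] [DecidableEq V] {G : SimpleGraph V} [DecidableRel G.Adj]

omit [DecidableEq V] [DecidableRel G.Adj] in
theorem typ_subset_bad (c : V → Bool) (a b : Bool) : typ G c a b ⊆ bad G c := by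
  intro v hv
  rw [mem_bad]
  rintro ⟨u, w, hu, hw, h⟩
  have h1 := (mem_typ.1 hv).2 u hu
  have h2 := (mem_typ.1 hv).2 w hw
  revert h h1 h2
  cases c u <;> cases c w <;> cases b <;> simp

theorem typ_sum_le (h2 : ∀ v, 2 ≤ G.degree v) (c : V → Bool) :
    (typ G c true true).card + (typ G c false false).card + (typ G c true false).card +
      (typ G c false true).card ≤ (bad G c).card := by
  have dj : ∀ a b a' b', (a ≠ a' ∨ b ≠ b') → Disjoint (typ G c a b) (typ G c a' b') := by
    intro a b a' b' h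
    rw [disjoint_left]
    intro v h3 h4
    rw [mem_typ] at h3 h4
    obtain ⟨t, ht, -⟩ := exists_other (h2 v) v
    have h5 := h3.2 t ht
    have h6 := h4.2 t ht
    have h7 := h3.1.symm.trans h4.1
    revert h h5 h6 h7
    cases c t <;> cases a <;> cases a' <;> cases b <;> cases b' <;> simp
  rw [← card_union_of_disjoint (dj _ _ _ _ (by simp)), ← card_union_of_disjoint,
    ← card_union_of_disjoint]
  · refine card_le_card ?_
    simp only [union_subset_iff]
    exact ⟨⟨⟨typ_subset_bad _ _ _, typ_subset_bad _ _ _⟩, typ_subset_bad _ _ _⟩, typ_subset_bad _ _ _⟩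
  · simp only [disjoint_union_left]
    exact ⟨⟨dj _ _ _ _ (by simp), dj _ _ _ _ (by simp)⟩, dj _ _ _ _ (by simp)⟩
  · simp only [disjoint_union_left]
    exact ⟨dj _ _ _ _ (by simp), dj _ _ _ _ (by simp)⟩

theorem Inv.move (h2 : ∀ v, 2 ≤ G.degree v)
    (hmin : ∀ u v, G.Adj u v → G.degree u = 2 ∨ G.degree v = 2) {K : ℕ} {c : V → Bool}
    (h : Inv G K c) (β : Bool) (hne : (typ G c β (!β)).Nonempty) :
    ∃ c', Inv G K c' ∧ (typ G c' β (!β)).card + 1 ≤ (typ G c β (!β)).card ∧
      (typ G c' (!β) β).card ≤ (typ G c (!β) β).card + 1 := by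
  obtain ⟨a, ha⟩ := hne
  have ha' := mem_typ.1 ha
  have hab : a ∈ bad G c := typ_subset_bad _ _ _ ha
  have col : ∀ u, G.Adj a u → c u = β := fun u hu => by
    have := ha'.2 u hu
    revert this
    cases c u <;> cases β <;> simp
  obtain ⟨s, has, hs⟩ : ∃ s, G.Adj a s ∧ G.degree s = 2 := by
    by_contra hcon
    push Not at hcon
    obtain ⟨t, ht, -⟩ := exists_other (h2 a) a
    have hE : a ∈ EE G := mem_EE.2 ⟨(hmin a t ht).resolve_right (hcon t ht), fun u hu => by
      have := h2 u
      have := hcon u hu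
      omega⟩
    exact h.opp a (mem_inter.2 ⟨hE, hab⟩) t ht (by rw [col t ht, ha'.1])
  obtain ⟨b, hba, hsb, hall⟩ := other_end hs has.symm
  obtain ⟨t, ht, hts⟩ := exists_other (h2 a) s
  obtain ⟨c', hc'⟩ : ∃ c', c' = Function.update c s (!β) := ⟨_, rfl⟩
  have c1 : c' s = !β := by rw [hc', Function.update_self]
  have c2 : ∀ v, v ≠ s → c' v = c v := fun v hv => by rw [hc', Function.update_of_ne hv]
  have hL : ∀ v, 3 ≤ G.degree v → c' v = c v := fun v hv => c2 v fun e => by subst e; omega
  have hE := EE_bad_congr hL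
  have hga : Good G c' a := ⟨s, t, has, ht, by rw [c1, c2 t hts, col t ht]; simp⟩
  refine ⟨c', ⟨?_, ?_, ?_⟩, ?_, ?_⟩
  · intro x hx u hu
    rw [hE] at hx
    have h3 := mem_EE.1 (mem_inter.1 hx).1
    rw [hL u (h3.2 u hu)]
    by_cases e : x = s
    · subst e
      have h4 : c u = c a := by
        by_contra e
        exact mem_bad.1 (mem_inter.1 hx).2 ⟨u, a, hu, has.symm, e⟩
      rw [c1, h4, ha'.1]
      simp
    · rw [c2 x e]
      exact h.opp x hx u hu
  · intro c''
    rw [hE]
    exact h.opt c''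
  · rw [hE]
    refine le_trans (Nat.mul_le_mul_left 3 ?_) h.cnt
    have h3 : bad G c' ⊆ insert b ((bad G c).erase a) := by
      intro v hv
      rw [mem_bad] at hv
      by_cases e : v = b
      · simp [e]
      · have hva : v ≠ a := fun e' => hv (e' ▸ hga)
        refine mem_insert_of_mem (mem_erase.2 ⟨hva, mem_bad.2 fun g => hv (g.congr ?_)⟩)
        intro u hu
        refine c2 u fun e' => ?_
        subst e'
        rcases hall v hu.symm with h | h
        · exact hva h
        · exact e h
    have h4 := (card_le_card h3).trans (card_insert_le _ _)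
    have h5 := card_erase_add_one hab
    omega
  · have h3 : typ G c' β (!β) ⊆ (typ G c β (!β)).erase a := by
      intro v hv
      rw [mem_typ] at hv
      have hvs : v ≠ s := fun e => by
        have := hv.1
        rw [e, c1] at this
        simp at this
      have hn : ¬ G.Adj v s := fun e => hv.2 s e c1
      refine mem_erase.2 ⟨fun e => hn (e ▸ has), mem_typ.2 ⟨c2 v hvs ▸ hv.1, fun u hu => ?_⟩⟩
      rw [← c2 u fun e => hn (e ▸ hu)]
      exact hv.2 u hu
    have h4 := card_le_card h3
    have h5 := card_erase_add_one ha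
    omega
  · have h3 : typ G c' (!β) β ⊆ insert b (typ G c (!β) β) := by
      intro v hv
      rw [mem_typ] at hv
      have hvs : v ≠ s := fun e => hv.2 a (e ▸ has.symm) (by rw [c2 a has.ne, ha'.1])
      by_cases e : v = b
      · simp [e]
      · have h4 : c v = !β := c2 v hvs ▸ hv.1
        refine mem_insert_of_mem (mem_typ.2 ⟨h4, fun u hu => ?_⟩)
        rw [← c2 u]
        · exact hv.2 u hu
        · rintro rfl
          rcases hall v hu.symm with h | h
          · rw [h, ha'.1] at h4
            simp at h4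
          · exact e h
    exact (card_le_card h3).trans (card_insert_le _ _)

theorem Inv.balance (h2 : ∀ v, 2 ≤ G.degree v)
    (hmin : ∀ u v, G.Adj u v → G.degree u = 2 ∨ G.degree v = 2) {K : ℕ} {c : V → Bool}
    (h : Inv G K c) : ∃ c', Inv G K c' ∧
      (typ G c' true false).card ≤ (typ G c' false true).card + 1 ∧
      (typ G c' false true).card ≤ (typ G c' true false).card + 1 := by
  classical
  obtain ⟨c', h1, h3⟩ := exists_min_image (univ.filter fun c : V → Bool => Inv G K c)
    (fun c => max (typ G c true false).card (typ G c false true).card) ⟨c, by simpa using h⟩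
  have h4 : Inv G K c' := (mem_filter.1 h1).2
  refine ⟨c', h4, ?_, ?_⟩
  · by_contra hcon
    obtain ⟨c'', h5, h6, h7⟩ := h4.move h2 hmin true (card_pos.1 (by simp only [Bool.not_true]; omega))
    have := h3 c'' (by simpa using h5)
    simp only [Bool.not_true] at h6 h7
    omega
  · by_contra hcon
    obtain ⟨c'', h5, h6, h7⟩ := h4.move h2 hmin false (card_pos.1 (by simp only [Bool.not_false]; omega))
    have := h3 c'' (by simpa using h5)
    simp only [Bool.not_false] at h6 h7
    omega

theorem Inv.flip {K : ℕ} {c : V → Bool} (h : Inv G K c)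
    (hbig : ∀ β, (LL G).card + 2 ≤ ((EE G ∩ bad G c).filter fun s => c s = β).card)
    (j : Bool → ℕ) (hj : ∀ β, j β ≤ 2) :
    ∃ c', ∀ β, (typ G c' β β).card + j β ≤ (typ G c β β).card ∧
      (typ G c' β (!β)).card ≤ (typ G c β (!β)).card + j (!β) := by
  have des : ∀ l, ∃ d, (∃ u, G.Adj l u ∧ c u ≠ c l) → G.Adj l d ∧ c d ≠ c l := by
    intro l
    by_cases e : ∃ u, G.Adj l u ∧ c u ≠ c l
    · obtain ⟨u, hu⟩ := e
      exact ⟨u, fun _ => hu⟩
    · exact ⟨l, fun e' => absurd e' e⟩
  choose des hdes using des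
  have ex : ∀ β, ∃ F ⊆ ((EE G ∩ bad G c).filter fun s => c s = β) \ (LL G).image des,
      F.card = j β := by
    intro β
    apply exists_subset_card_eq
    have h1 := le_card_sdiff ((LL G).image des) ((EE G ∩ bad G c).filter fun s => c s = β)
    have h3 := card_image_le (s := LL G) (f := des)
    have := hbig β
    have := hj β
    omega
  choose F hF hFc using ex
  have m1 : ∀ β, ∀ s ∈ F β, s ∈ EE G ∩ bad G c ∧ c s = β ∧ s ∉ (LL G).image des := by
    intro β s hs
    have := mem_sdiff.1 (hF β hs)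
    exact ⟨(mem_filter.1 this.1).1, (mem_filter.1 this.1).2, this.2⟩
  obtain ⟨c', hc'⟩ : ∃ c' : V → Bool, c' = fun v => if v ∈ F (c v) then !c v else c v := ⟨_, rfl⟩
  have c1 : ∀ v, v ∈ F (c v) → c' v = !c v := fun v hv => by rw [hc']; exact if_pos hv
  have c2 : ∀ v, v ∉ F (c v) → c' v = c v := fun v hv => by rw [hc']; exact if_neg hv
  have hL : ∀ v, 3 ≤ G.degree v → c' v = c v := fun v hv => c2 v fun e => by
    have := (mem_EE.1 (mem_inter.1 (m1 _ v e).1).1).1
    omega
  have need : ∀ v b, Need G c' v b → Need G c v b := by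
    intro v b hv u hu e
    by_cases hu' : u ∈ F (c u)
    · obtain ⟨h1, -, -⟩ := m1 _ u hu'
      have h3 := (mem_EE.1 (mem_inter.1 h1).1).2 v hu.symm
      have h4 := h.opp u h1 v hu.symm
      obtain ⟨h5, h6⟩ := hdes v ⟨u, hu, h4.symm⟩
      refine hv (des v) h5 ?_
      rw [c2 _ fun e' => (m1 _ _ e').2.2 (mem_image_of_mem _ (mem_LL.2 h3)), ← e]
      revert h4 h6
      cases c v <;> cases c u <;> cases c (des v) <;> simp
    · exact hv u hu (by rw [c2 u hu', e])
  refine ⟨c', fun β => ⟨?_, ?_⟩⟩
  · have h1 : F β ⊆ typ G c β β := by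
      intro s hs
      obtain ⟨h1, h3, -⟩ := m1 β s hs
      exact mem_typ.2 ⟨h3, fun u hu => h3 ▸ h.opp s h1 u hu⟩
    have h3 : typ G c' β β ⊆ typ G c β β \ F β := by
      intro v hv
      rw [mem_typ] at hv
      have hvF : v ∉ F (c v) := by
        intro e
        obtain ⟨h4, -, -⟩ := m1 _ v e
        have h5 := mem_EE.1 (mem_inter.1 h4).1
        obtain ⟨t, ht, -⟩ := exists_other h5.1.ge v
        have h6 := h.opp v h4 t ht
        have h7 := hv.2 t ht
        have h8 := hv.1
        rw [hL t (h5.2 t ht)] at h7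
        rw [c1 v e] at h8
        revert h6 h7 h8
        cases c v <;> cases c t <;> cases β <;> simp
      have h4 : c v = β := c2 v hvF ▸ hv.1
      exact mem_sdiff.2 ⟨mem_typ.2 ⟨h4, need v β hv.2⟩, h4 ▸ hvF⟩
    have h4 := card_le_card h3
    have h5 := card_sdiff_add_card_eq_card h1
    have := hFc β
    omega
  · have h3 : typ G c' β (!β) ⊆ typ G c β (!β) ∪ F (!β) := by
      intro v hv
      rw [mem_typ] at hv
      by_cases hvF : v ∈ F (c v)
      · refine mem_union_right _ ?_
        have h4 := hv.1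
        rw [c1 v hvF] at h4
        rw [← h4, Bool.not_not]
        exact hvF
      · exact mem_union_left _ (mem_typ.2 ⟨c2 v hvF ▸ hv.1, need v _ hv.2⟩)
    have h4 := (card_le_card h3).trans (card_union_le _ _)
    have := hFc (!β)
    omega

theorem Inv.caseA (h2 : ∀ v, 2 ≤ G.degree v) {K : ℕ} {c : V → Bool} (h : Inv G K c)
    (hbig : ∀ β, (LL G).card + 2 ≤ ((EE G ∩ bad G c).filter fun s => c s = β).card)
    (b1 : (typ G c true false).card ≤ (typ G c false true).card + 1)
    (b2 : (typ G c false true).card ≤ (typ G c true false).card + 1) :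
    ∃ c', 2 * cost G c' ≤ (bad G c).card + 1 := by
  have hs := typ_sum_le h2 c
  have key : ∀ i j, i ≤ 2 → j ≤ 2 → ∃ c', (typ G c' true true).card + j ≤ (typ G c true true).card ∧
      (typ G c' false false).card + i ≤ (typ G c false false).card ∧
      (typ G c' true false).card ≤ (typ G c true false).card + i ∧
      (typ G c' false true).card ≤ (typ G c false true).card + j := by
    intro i j hi hj
    obtain ⟨c', hc'⟩ := h.flip hbig (fun β => if β then j else i) (fun β => by cases β <;> simpa)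
    exact ⟨c', (hc' true).1, (hc' false).1, (hc' true).2, (hc' false).2⟩
  obtain ⟨i, j, hi, hj, hij⟩ : ∃ i j, i ≤ 2 ∧ j ≤ 2 ∧ ∀ x y p q,
      x + j ≤ (typ G c true true).card → y + i ≤ (typ G c false false).card →
      p ≤ (typ G c true false).card + i → q ≤ (typ G c false true).card + j →
      2 * ((x + 1) / 2 + (y + 1) / 2 + max p q) ≤ (bad G c).card + 1 := by
    generalize (typ G c true true).card = X at *
    generalize (typ G c false false).card = Y at *
    generalize (typ G c true false).card = P at *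
    generalize (typ G c false true).card = Q at *
    rcases Nat.mod_two_eq_zero_or_one X with hX | hX <;>
      rcases Nat.mod_two_eq_zero_or_one Y with hY | hY <;>
      rcases lt_trichotomy P Q with hP | hP | hP
    all_goals first
      | exact ⟨0, 0, by omega, by omega, fun x y p q _ _ _ _ => by omega⟩
      | exact ⟨1, 0, by omega, by omega, fun x y p q _ _ _ _ => by omega⟩
      | exact ⟨0, 1, by omega, by omega, fun x y p q _ _ _ _ => by omega⟩
      | exact ⟨1, 1, by omega, by omega, fun x y p q _ _ _ _ => by omega⟩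
      | exact ⟨1, 2, by omega, by omega, fun x y p q _ _ _ _ => by omega⟩
      | exact ⟨2, 1, by omega, by omega, fun x y p q _ _ _ _ => by omega⟩
  obtain ⟨c', h3, h4, h5, h6⟩ := key i j hi hj
  exact ⟨c', hij _ _ _ _ h3 h4 h5 h6⟩

theorem Inv.caseB {K : ℕ} {c : V → Bool} (h : Inv G K c) (β : Bool) :
    3 * (EE G ∩ bad G c).card ≤
      (EE G).card + 2 * ((EE G ∩ bad G c).filter fun s => c s = β).card := by
  have e1 := card_filter_add_card_filter_not (s := EE G ∩ bad G c) (fun s => c s = β)
  have e2 : (EE G \ bad G c).card + (EE G ∩ bad G c).card = (EE G).card :=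
    card_sdiff_add_card_inter _ _
  obtain ⟨S, hS⟩ : ∃ S : Finset V, S = univ.filter fun v => c v = β := ⟨_, rfl⟩
  have e3 := sum_le_sum (s := S) fun l _ => local_opt h.opt l
  simp only [card_filter] at e3
  rw [sum_comm, sum_comm (s := S)] at e3
  simp only [← card_filter] at e3
  have e4 : ∑ s ∈ EE G \ bad G c, (S.filter fun l => G.Adj l s).card ≤ ∑ _s ∈ EE G \ bad G c, 1 := by
    refine sum_le_sum fun s hs => card_le_one.2 fun a ha b hb => ?_
    by_contra hne
    obtain ⟨h1, h3⟩ := mem_sdiff.1 hs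
    simp only [hS, mem_filter, mem_univ, true_and] at ha hb
    obtain ⟨b', -, hb', hall⟩ := other_end (mem_EE.1 h1).1 ha.2.symm
    have h4 := (hall b hb.2.symm).resolve_left (Ne.symm hne)
    subst h4
    rw [mem_bad, good_iff ha.2.symm hb' hall, ha.1, hb.1] at h3
    simp at h3
  have e5 : ∑ _s ∈ (EE G ∩ bad G c).filter fun s => ¬ c s = β, 2 ≤
      ∑ s ∈ EE G ∩ bad G c, (S.filter fun l => G.Adj l s).card := by
    refine le_trans (sum_le_sum fun s hs => ?_) (sum_le_sum_of_subset (filter_subset (fun s => ¬ c s = β) _))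
    obtain ⟨h1, h3⟩ := mem_filter.1 hs
    rw [← (mem_EE.1 (mem_inter.1 h1).1).1, ← SimpleGraph.card_neighborFinset_eq_degree]
    refine card_le_card fun u hu => ?_
    rw [SimpleGraph.mem_neighborFinset] at hu
    have h4 := h.opp s h1 u hu
    simp only [hS, mem_filter, mem_univ, true_and]
    refine ⟨?_, hu.symm⟩
    revert h3 h4
    cases c s <;> cases c u <;> cases β <;> simp
  simp only [sum_const, smul_eq_mul] at e4 e5
  omega

end Pool.Agent.Work.MP_df5a7a_co
end

-- merged part: Pool.Agent.Work.MP_df5a7a_co.Cut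
section
/-! A cut bound for multigraphs: averaging over colourings that split a matching. -/

namespace Pool.Agent.Work.MP_df5a7a_co

open Finset

theorem half_lemma {ι : Type} [Fintype ι] [DecidableEq ι] {x y : ι} (hxy : x ≠ y) (p q : Bool) :
    2 * (univ.filter fun f : ι → Bool => xor (f x) p = xor (f y) q).card =
      Fintype.card (ι → Bool) := by
  have h1 : (univ.filter fun f : ι → Bool => xor (f x) p = xor (f y) q).card =
      (univ.filter fun f : ι → Bool => ¬ xor (f x) p = xor (f y) q).card := by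
    refine card_nbij' (fun f => Function.update f x (!f x)) (fun f => Function.update f x (!f x))
      ?_ ?_ ?_ ?_
    · intro f hf
      simp only [coe_filter, mem_univ, true_and, Set.mem_ofPred_eq, Function.update_self,
        Function.update_of_ne hxy.symm] at hf ⊢
      rw [← hf]
      cases f x <;> cases p <;> simp
    · intro f hf
      simp only [coe_filter, mem_univ, true_and, Set.mem_ofPred_eq, Function.update_self,
        Function.update_of_ne hxy.symm] at hf ⊢
      revert hf
      cases f x <;> cases p <;> cases f y <;> cases q <;> simp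
    · intro f _
      simp
    · intro f _
      simp
  have h2 := card_filter_add_card_filter_not (s := (univ : Finset (ι → Bool)))
    (fun f : ι → Bool => xor (f x) p = xor (f y) q)
  rw [card_univ] at h2
  omega

variable {V : Type} [Fintype V] [DecidableEq V]

theorem cut_inv (E : Finset V) (a b : V → V) (hab : ∀ s ∈ E, a s ≠ b s) (π : V → V)
    (hπ : ∀ v, π (π v) = v) :
    ∃ c : V → Bool, 2 * (E.filter fun s => c (a s) = c (b s)).card +
      (E.filter fun s => b s = π (a s)).card ≤ E.card := by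
  let φ := Fintype.equivFin V
  let σ : V → Bool := fun v => decide (φ v < φ (π v))
  let col : (Sym2 V → Bool) → V → Bool := fun f v => xor (f s(v, π v)) (σ v)
  have key : ∀ s ∈ E, 2 * (univ.filter fun f : Sym2 V → Bool => col f (a s) = col f (b s)).card +
      (if b s = π (a s) then Fintype.card (Sym2 V → Bool) else 0) = Fintype.card (Sym2 V → Bool) := by
    intro s hs
    split_ifs with h
    · have : (univ.filter fun f : Sym2 V → Bool => col f (a s) = col f (b s)) = ∅ := by
        rw [eq_empty_iff_forall_notMem]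
        intro f hf
        have h1 := (mem_filter.1 hf).2
        have h2 : π (b s) = a s := by rw [h, hπ]
        have h3 : φ (a s) ≠ φ (b s) := fun e => hab s hs (φ.injective e)
        simp only [col, σ, h2, ← h] at h1
        rw [Sym2.eq_swap (a := b s)] at h1
        have h4 := Bool.xor_right_inj.1 h1
        simp only [decide_eq_decide] at h4
        rcases lt_or_gt_of_ne h3 with h5 | h5
        · exact absurd (h4.1 h5) (not_lt.2 h5.le)
        · exact absurd (h4.2 h5) (not_lt.2 h5.le)
      simp [this]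
    · rw [add_zero]
      refine half_lemma ?_ _ _
      intro e
      rcases Sym2.eq_iff.1 e with e | e
      · exact hab s hs e.1
      · exact h e.2.symm
  have hsum : ∑ f : Sym2 V → Bool, (2 * (E.filter fun s => col f (a s) = col f (b s)).card +
      (E.filter fun s => b s = π (a s)).card) ≤ ∑ _f : Sym2 V → Bool, E.card := by
    have e1 := sum_congr rfl key
    rw [sum_add_distrib, ← mul_sum, ← sum_filter] at e1
    have e2 : ∑ f : Sym2 V → Bool, (E.filter fun s => col f (a s) = col f (b s)).card =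
        ∑ s ∈ E, (univ.filter fun f : Sym2 V → Bool => col f (a s) = col f (b s)).card := by
      simp only [card_filter]
      exact sum_comm
    rw [sum_add_distrib, ← mul_sum, e2]
    simp only [sum_const, smul_eq_mul, card_univ] at e1 ⊢
    rw [mul_comm (Fintype.card _), mul_comm (Fintype.card _)]
    exact e1.le
  obtain ⟨f, -, hf⟩ := exists_le_of_sum_le univ_nonempty hsum
  exact ⟨col f, hf⟩

theorem cut_bound (E S : Finset V) (a b : V → V) (hab : ∀ s ∈ E, a s ≠ b s) :
    ∃ (c : V → Bool) (w : ℕ), (E.filter fun s => a s ∈ S ∧ b s ∈ S).card ≤ w * S.card ∧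
      2 * (E.filter fun s => c (a s) = c (b s)).card + w ≤ E.card := by
  rcases S.eq_empty_or_nonempty with rfl | hS
  · obtain ⟨c, hc⟩ := cut_inv E a b hab id fun _ => rfl
    exact ⟨c, _, by simp, hc⟩
  have : NeZero S.card := ⟨(card_pos.2 hS).ne'⟩
  let e := S.equivFin
  let π : Fin S.card → V → V := fun t v => if h : v ∈ S then (e.symm (t - e ⟨v, h⟩) : V) else v
  have hπ : ∀ t v, π t (π t v) = v := by
    intro t v
    by_cases h : v ∈ S
    · have h1 : π t v = (e.symm (t - e ⟨v, h⟩) : V) := dif_pos h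
      rw [h1]
      have h2 := (e.symm (t - e ⟨v, h⟩)).2
      simp only [π, dif_pos h2]
      simp
    · simp only [π, dif_neg h]
  obtain ⟨t, -, ht⟩ := exists_max_image univ
    (fun t => (E.filter fun s => b s = π t (a s)).card) univ_nonempty
  obtain ⟨c, hc⟩ := cut_inv E a b hab (π t) (hπ t)
  refine ⟨c, _, ?_, hc⟩
  have h1 : (E.filter fun s => a s ∈ S ∧ b s ∈ S) ⊆
      univ.biUnion fun t => E.filter fun s => b s = π t (a s) := by
    intro s hs
    obtain ⟨h1, h2, h3⟩ := mem_filter.1 hs
    refine mem_biUnion.2 ⟨e ⟨a s, h2⟩ + e ⟨b s, h3⟩, mem_univ _, mem_filter.2 ⟨h1, ?_⟩⟩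
    simp only [π, dif_pos h2]
    simp
  refine (card_le_card h1).trans (card_biUnion_le.trans ?_)
  refine (sum_le_sum fun t' _ => ht t' (mem_univ _)).trans ?_
  simp [mul_comm]

end Pool.Agent.Work.MP_df5a7a_co
end

-- merged part: Pool.Agent.Work.MP_df5a7a_co.Upper
section
/-! The upper bound `td G ≤ (n - 2 √n + 3) / 4` for `n ≥ 1024`. -/

namespace Pool.Agent.Work.MP_df5a7a_co

open Finset

variable {V : Type} [Fintype V] [DecidableEq V] {G : SimpleGraph V} [DecidableRel G.Adj]

omit [DecidableEq V] [DecidableRel G.Adj] in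
theorem cost_eq (c : V → Bool) (β : Bool) : cost G c =
    ((typ G c β β).card + 1) / 2 + ((typ G c (!β) (!β)).card + 1) / 2 +
      max (typ G c β (!β)).card (typ G c (!β) β).card := by
  unfold cost
  cases β
  · simp only [Bool.not_false]
    omega
  · rfl

theorem aug_cost' (h2 : ∀ v, 2 ≤ G.degree v)
    (hmin : ∀ u v, G.Adj u v → G.degree u = 2 ∨ G.degree v = 2) (c : V → Bool) (k : ℕ)
    (hk : cost G c ≤ k) (hn : k + 4 ≤ Fintype.card V) : Aug G k := by
  by_cases hc : ∀ b, 2 ≤ (univ.filter fun v => c v = b).card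
  · exact aug_cost c hc k G hk
  push Not at hc
  obtain ⟨β, hβ⟩ := hc
  have hcost := cost_eq (G := G) c β
  have hle : ∀ u v, c u = β → c v = β → u = v := fun u v hu hv =>
    card_le_one.1 (Nat.lt_succ_iff.1 hβ) u (by simpa using hu) v (by simpa using hv)
  have neg : ∀ u, c u ≠ β → c u = !β := fun u hu => by
    revert hu
    cases c u <;> cases β <;> simp
  by_cases hz : ∃ z, c z = β
  swap
  · push Not at hz
    have : univ ⊆ typ G c (!β) β := fun v _ => mem_typ.2 ⟨neg v (hz v), fun u _ => hz u⟩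
    have h3 := card_le_card this
    rw [card_univ] at h3
    omega
  obtain ⟨z, hz⟩ := hz
  have oth : ∀ u, u ≠ z → c u = !β := fun u hu => neg u fun e => hu (hle u z e hz)
  have hzt : z ∈ typ G c β β := mem_typ.2 ⟨hz, fun u hu e => hu.ne (hle z u hz e)⟩
  have hzc := card_pos.2 ⟨z, hzt⟩
  have hz3 : G.degree z ≠ 2 := by
    intro e
    have : univ ⊆ insert z (G.neighborFinset z ∪ typ G c (!β) β) := by
      intro v _
      by_cases e1 : v = z
      · simp [e1]
      by_cases e2 : G.Adj z v
      · simp [e2]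
      refine mem_insert_of_mem (mem_union_right _ (mem_typ.2 ⟨oth v e1, fun u hu e3 => e2 ?_⟩))
      rw [← hle u z e3 hz]
      exact hu.symm
    have h3 := (card_le_card this).trans (card_insert_le _ _)
    have h4 := card_union_le (G.neighborFinset z) (typ G c (!β) β)
    rw [SimpleGraph.card_neighborFinset_eq_degree] at h4
    rw [card_univ] at h3
    omega
  obtain ⟨s, hzs, -⟩ := exists_other (h2 z) z
  have hs := (hmin z s hzs).resolve_left hz3
  obtain ⟨b, hbz, hsb, hall⟩ := other_end hs hzs.symm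
  obtain ⟨t, ht, hts⟩ := exists_other (h2 z) s
  obtain ⟨c', hc'⟩ : ∃ c', c' = Function.update c s β := ⟨_, rfl⟩
  have c1 : c' s = β := by rw [hc', Function.update_self]
  have c2 : ∀ v, v ≠ s → c' v = c v := fun v hv => by rw [hc', Function.update_of_ne hv]
  have c3 : c' z = β := by rw [c2 z hzs.ne, hz]
  have c4 : ∀ v, v ≠ s → v ≠ z → c' v = !β := fun v h3 h4 => by rw [c2 v h3, oth v h4]
  have c5 : ∀ v, c' v = β → v = s ∨ v = z := fun v hv => by
    by_contra hcon
    push Not at hcon
    rw [c4 v hcon.1 hcon.2] at hv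
    simp at hv
  refine aug_cost c' (fun x => ?_) k G ?_
  · by_cases e : x = β
    · subst e
      refine le_trans (card_pair hzs.ne).ge (card_le_card ?_)
      intro v hv
      simp only [mem_insert, mem_singleton] at hv
      rcases hv with rfl | rfl <;> simpa
    · have : univ ⊆ insert z (insert s (univ.filter fun v => c' v = x)) := by
        intro v _
        by_cases e1 : v = z
        · simp [e1]
        by_cases e2 : v = s
        · simp [e2]
        refine mem_insert_of_mem (mem_insert_of_mem (mem_filter.2 ⟨mem_univ _, ?_⟩))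
        rw [c4 v e2 e1]
        revert e
        cases x <;> cases β <;> simp
      have h3 := (card_le_card this).trans (card_insert_le _ _)
      have h4 := card_insert_le s (univ.filter fun v => c' v = x)
      rw [card_univ] at h3
      omega
  · have t1 : typ G c' β β = ∅ := by
      rw [eq_empty_iff_forall_notMem]
      intro v hv
      rw [mem_typ] at hv
      rcases c5 v hv.1 with rfl | rfl
      · exact hv.2 z hzs.symm c3
      · exact hv.2 s hzs c1
    have t2 : typ G c' β (!β) = ∅ := by
      rw [eq_empty_iff_forall_notMem]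
      intro v hv
      rw [mem_typ] at hv
      rcases c5 v hv.1 with rfl | rfl
      · exact hv.2 b hsb (c4 b hsb.ne.symm hbz)
      · exact hv.2 t ht (c4 t hts ht.ne.symm)
    have t3 : typ G c' (!β) (!β) ⊆ {b} := by
      intro v hv
      rw [mem_typ] at hv
      obtain ⟨u, hu, huz⟩ := exists_other (h2 v) z
      have hus : u = s := by
        by_contra e
        exact hv.2 u hu (c4 u e huz)
      subst hus
      rcases hall v hu.symm with rfl | rfl
      · have := hv.1
        rw [c3] at this
        simp at this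
      · simp
    have t4 : typ G c' (!β) β ⊆ typ G c (!β) β := by
      intro v hv
      rw [mem_typ] at hv ⊢
      have hvs : v ≠ s := fun e => by
        have := hv.1
        rw [e, c1] at this
        simp at this
      refine ⟨c2 v hvs ▸ hv.1, fun u hu e => hv.2 u hu ?_⟩
      rw [hle u z e hz, c3]
    have t5 := card_le_card t3
    have t6 := card_le_card t4
    rw [card_singleton] at t5
    rw [cost_eq c' β, t1, t2, card_empty]
    omega

theorem arithA {n m w x y : ℕ} (hn : 1024 ≤ n) (h1 : n ≤ (w + 1) * m + x) (h2 : x ≤ 5 * y) :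
    6 * Real.sqrt n ≤ 3 * (m + w + 1 : ℝ) + y := by
  obtain ⟨q, hq⟩ : ∃ q, q = Real.sqrt n := ⟨_, rfl⟩
  have q2 : q ^ 2 = n := by rw [hq]; exact Real.sq_sqrt (Nat.cast_nonneg n)
  have q0 : 32 ≤ q := by
    rw [hq]
    refine Real.le_sqrt_of_sq_le ?_
    have : (1024 : ℝ) ≤ n := by exact_mod_cast hn
    linarith
  rw [← hq]
  have h3 : (n : ℝ) ≤ (w + 1) * m + 5 * y := by exact_mod_cast h1.trans (by omega)
  have y0 : (0 : ℝ) ≤ y := Nat.cast_nonneg y
  have m0 : (0 : ℝ) ≤ m := Nat.cast_nonneg m
  have w0 : (0 : ℝ) ≤ w := Nat.cast_nonneg w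
  by_contra hcon
  push Not at hcon
  obtain ⟨z, hz⟩ : ∃ z : ℝ, z = m + w + 1 := ⟨_, rfl⟩
  have h4 : 4 * (q ^ 2 - 5 * y) ≤ z ^ 2 := by
    rw [hz, q2]
    nlinarith [sq_nonneg ((m : ℝ) - (w + 1))]
  rw [← hz] at hcon
  have z0 : 0 ≤ z := by rw [hz]; positivity
  have h5 : (3 * z) ^ 2 < (6 * q - y) ^ 2 := by
    apply pow_lt_pow_left₀ (by linarith) (by linarith) (by norm_num)
  have h6 : (y : ℝ) * (y - 6 * q) ≤ 0 := mul_nonpos_of_nonneg_of_nonpos y0 (by linarith)
  have h7 : 0 ≤ (y : ℝ) * (q - 32) := mul_nonneg y0 (by linarith)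
  nlinarith

theorem arithB {n : ℕ} (hn : 1024 ≤ n) : 30 * Real.sqrt n + 64 ≤ n := by
  have q2 := Real.mul_self_sqrt (Nat.cast_nonneg (α := ℝ) n)
  have q0 : 32 ≤ Real.sqrt n := by
    refine Real.le_sqrt_of_sq_le ?_
    have : (1024 : ℝ) ≤ n := by exact_mod_cast hn
    linarith
  nlinarith

theorem exists_cost (h2 : ∀ v, 2 ≤ G.degree v)
    (hmin : ∀ u v, G.Adj u v → G.degree u = 2 ∨ G.degree v = 2) (hn : 1024 ≤ Fintype.card V) :
    ∃ c, 4 * (cost G c : ℝ) ≤ Fintype.card V - 2 * Real.sqrt (Fintype.card V) + 3 := by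
  obtain ⟨c0, M, hM, hM4, hinv0⟩ := first_colouring h2 hmin
  obtain ⟨c, hinv, b1, b2⟩ := hinv0.balance h2 hmin
  have ends : ∀ s, ∃ a b, s ∈ EE G → a ≠ b ∧ G.Adj s a ∧ G.Adj s b ∧
      ∀ u, G.Adj s u → u = a ∨ u = b := by
    intro s
    by_cases hs : s ∈ EE G
    · obtain ⟨a, ha, -⟩ := exists_other (h2 s) s
      obtain ⟨b, h3, h4, h5⟩ := other_end (mem_EE.1 hs).1 ha
      exact ⟨a, b, fun _ => ⟨h3.symm, ha, h4, h5⟩⟩
    · exact ⟨s, s, fun h => absurd h hs⟩
  choose ea eb hab using ends
  obtain ⟨c1, w, hw1, hw2⟩ := cut_bound (EE G) (LL G \ M) ea eb fun s hs => (hab s hs).1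
  have e1 : ((EE G).filter fun s => c1 (ea s) = c1 (eb s)) = EE G ∩ bad G c1 := by
    ext s
    simp only [mem_filter, mem_inter, mem_bad]
    refine and_congr_right fun hs => ?_
    rw [good_iff (hab s hs).2.1 (hab s hs).2.2.1 (hab s hs).2.2.2, not_not]
  rw [e1] at hw2
  have e2 := hinv.opt c1
  have e3 := hinv.cnt
  have e4 : (EE G).card ≤ ((EE G).filter fun s => ea s ∈ LL G \ M ∧ eb s ∈ LL G \ M).card +
      4 * M.card := by
    have : EE G ⊆ ((EE G).filter fun s => ea s ∈ LL G \ M ∧ eb s ∈ LL G \ M) ∪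
        M.biUnion fun l => (EE G).filter fun s => G.Adj l s := by
      intro s hs
      obtain ⟨-, h3, h4, -⟩ := hab s hs
      by_cases h5 : ea s ∈ M
      · exact mem_union_right _ (mem_biUnion.2 ⟨_, h5, mem_filter.2 ⟨hs, h3.symm⟩⟩)
      by_cases h6 : eb s ∈ M
      · exact mem_union_right _ (mem_biUnion.2 ⟨_, h6, mem_filter.2 ⟨hs, h4.symm⟩⟩)
      exact mem_union_left _ (mem_filter.2 ⟨hs,
        mem_sdiff.2 ⟨mem_LL.2 ((mem_EE.1 hs).2 _ h3), h5⟩,
        mem_sdiff.2 ⟨mem_LL.2 ((mem_EE.1 hs).2 _ h4), h6⟩⟩)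
    refine ((card_le_card this).trans (card_union_le _ _)).trans (Nat.add_le_add_left ?_ _)
    refine card_biUnion_le.trans ((sum_le_sum hM4).trans ?_)
    simp [mul_comm]
  have e5 : (LL G \ M).card + M.card = (LL G).card := card_sdiff_add_card_eq_card hM
  have e6 : (RR G).card + (EE G).card + (LL G).card = Fintype.card V := by
    have h3 : (RR G).card + (EE G).card = (univ.filter fun v => G.degree v = 2).card :=
      card_sdiff_add_card_eq_card fun s hs => by simpa using (mem_EE.1 hs).1
    have h4 : LL G = univ.filter fun v => ¬ G.degree v = 2 := by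
      ext v
      have := h2 v
      simp only [mem_LL, mem_filter, mem_univ, true_and]
      omega
    rw [h3, h4, card_filter_add_card_filter_not, card_univ]
  by_cases hbig : ∀ β, (LL G).card + 2 ≤ ((EE G ∩ bad G c).filter fun s => c s = β).card
  · obtain ⟨c', hc'⟩ := hinv.caseA h2 hbig b1 b2
    refine ⟨c', ?_⟩
    have h3 := arithA (m := (LL G \ M).card) (w := w) (x := (RR G).card + 5 * M.card)
      (y := (RR G).card + M.card) hn (by rw [add_mul, one_mul]; omega) (by omega)
    have h4 : 12 * cost G c' + 3 * ((LL G \ M).card + w + 1) + ((RR G).card + M.card) ≤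
        3 * Fintype.card V + 9 := by omega
    have h5 : (12 * cost G c' + 3 * ((LL G \ M).card + w + 1) + ((RR G).card + M.card : ℕ) : ℝ) ≤
        3 * Fintype.card V + 9 := by exact_mod_cast h4
    linarith
  · push Not at hbig
    obtain ⟨β, hβ⟩ := hbig
    have h3 := hinv.caseB β
    have h4 := typ_sum_le h2 c
    have h5 : 2 * cost G c ≤ (bad G c).card + 3 := by
      unfold cost
      omega
    have h6 : 60 * cost G c ≤ 14 * Fintype.card V + 94 := by omega
    have h7 : (60 * cost G c : ℝ) ≤ 14 * Fintype.card V + 94 := by exact_mod_cast h6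
    have h8 := arithB hn
    exact ⟨c, by linarith⟩

theorem exists_minimal (G : SimpleGraph V) [DecidableRel G.Adj] (h2 : ∀ v, 2 ≤ G.degree v) :
    ∃ (G0 : SimpleGraph V) (_ : DecidableRel G0.Adj), G0 ≤ G ∧ (∀ v, 2 ≤ G0.degree v) ∧
      ∀ u v, G0.Adj u v → G0.degree u = 2 ∨ G0.degree v = 2 := by
  classical
  obtain ⟨G0, h0, hmin⟩ := exists_min_image
    (univ.filter fun H : SimpleGraph V => H ≤ G ∧ ∀ v, 2 ≤ (H.neighborSet v).ncard)
    (fun H => H.edgeSet.ncard) ⟨G, by
      simp only [mem_filter, mem_univ, true_and, le_refl]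
      intro v
      rw [Set.ncard_eq_toFinset_card']
      exact h2 v⟩
  obtain ⟨h1, h3⟩ := (mem_filter.1 h0).2
  have hd : ∀ v, G0.degree v = (G0.neighborSet v).ncard := fun v => by
    rw [Set.ncard_eq_toFinset_card']
    rfl
  refine ⟨G0, inferInstance, h1, fun v => hd v ▸ h3 v, fun u v huv => ?_⟩
  by_contra hcon
  push Not at hcon
  have h4 := hmin (G0.deleteEdges {s(u, v)}) (mem_filter.2 ⟨mem_univ _,
    (SimpleGraph.deleteEdges_le _).trans h1, fun x => ?_⟩)
  · rw [SimpleGraph.edgeSet_deleteEdges] at h4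
    have := Set.ncard_sdiff_singleton_lt_of_mem (s := G0.edgeSet) (a := s(u, v)) huv
    omega
  · have key : ∀ y z, s(y, z) = s(u, v) → G0.degree y ≠ 2 →
        2 ≤ ((G0.deleteEdges {s(u, v)}).neighborSet y).ncard := by
      intro y z e hy
      have h5 : G0.neighborSet y ⊆ insert z ((G0.deleteEdges {s(u, v)}).neighborSet y) := by
        intro t ht
        by_cases e' : t = z
        · exact Or.inl e'
        · refine Or.inr ?_
          simp only [SimpleGraph.mem_neighborSet, SimpleGraph.deleteEdges_adj, Set.mem_singleton_iff]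
          exact ⟨ht, fun e'' => e' (Sym2.congr_right.1 (e''.trans e.symm))⟩
      have h6 := (Set.ncard_le_ncard h5 (Set.toFinite _)).trans (Set.ncard_insert_le _ _)
      have := h3 y
      have := hd y
      omega
    by_cases e1 : x = u
    · exact key x v (by rw [e1]) (e1 ▸ hcon.1)
    by_cases e2 : x = v
    · exact key x u (by rw [e2, Sym2.eq_swap]) (e2 ▸ hcon.2)
    refine (h3 x).trans (Set.ncard_le_ncard (fun t ht => ?_) (Set.toFinite _))
    simp only [SimpleGraph.mem_neighborSet, SimpleGraph.deleteEdges_adj, Set.mem_singleton_iff]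
    refine ⟨ht, fun e => ?_⟩
    rcases Sym2.eq_iff.1 e with h | h
    · exact e1 h.1
    · exact e2 h.1

theorem td_upper (G : SimpleGraph V) [DecidableRel G.Adj] (h2 : ∀ v, 2 ≤ G.degree v)
    (hn : 1024 ≤ Fintype.card V) :
    (td G : ℝ) ≤ (1 / 4 : ℝ) * ((Fintype.card V : ℝ) - 2 * Real.sqrt (Fintype.card V : ℝ)) + 3 / 4 := by
  obtain ⟨G0, _, h0, h3, hmin⟩ := exists_minimal G h2
  obtain ⟨c, hc⟩ := exists_cost h3 hmin hn
  have h4 : cost G0 c + 4 ≤ Fintype.card V := by
    have h5 : (1024 : ℝ) ≤ Fintype.card V := by exact_mod_cast hn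
    have h6 := Real.sqrt_nonneg (Fintype.card V : ℝ)
    have h7 : (cost G0 c + 4 : ℝ) ≤ Fintype.card V := by linarith
    exact_mod_cast h7
  have h5 := ((aug_cost' h3 hmin c _ le_rfl h4).mono h0).td_le
  have h6 : (td G : ℝ) ≤ cost G0 c := by exact_mod_cast h5
  linarith

end Pool.Agent.Work.MP_df5a7a_co
end
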